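import Pool.Agent.U959.LB.Hyp
import Pool.Agent.W695.KH.Defs

/-!
# Lipschitz bodies in the Hilbert metric: the change of variables
-/

set_option autoImplicit false

namespace Pool.Agent.U959.LB

open MeasureTheory Set Filter Topology
open scoped ENNReal
open Pool.Agent.W695.KH (Eu)

variable {n : ℕ}

/-- `tanh` in every coordinate -/
noncomputable def TH (y : Eu (Fin n)) : Eu (Fin n) := WithLp.toLp 2 fun i => Real.tanh (y i)

/-- the Jacobian -/
noncomputable def ww (y : Eu (Fin n)) : ℝ := ∏ i, vv (y i)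

/-- the open cube -/
def cube (n : ℕ) : Set (Eu (Fin n)) := {z | ∀ i, |z i| < 1}

theorem TH_apply (y : Eu (Fin n)) (i : Fin n) : TH y i = Real.tanh (y i) := rfl

theorem ww_pos (y : Eu (Fin n)) : 0 < ww y := Finset.prod_pos fun _ _ => vv_pos _

theorem ww_le (y : Eu (Fin n)) : ww y ≤ 1 :=
  Finset.prod_le_one (fun _ _ => (vv_pos _).le) fun _ _ => vv_le _

theorem vv_cont : Continuous vv := by
  unfold vv
  exact continuous_const.sub (tanh_cont.pow 2)

theorem ww_cont : Continuous (ww (n := n)) := by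
  unfold ww
  refine continuous_finsetProd _ fun i _ => vv_cont.comp ?_
  fun_prop

theorem TH_cont : Continuous (TH (n := n)) := by
  unfold TH
  refine (PiLp.continuous_toLp 2 _).comp (continuous_pi fun i => tanh_cont.comp ?_)
  fun_prop

/-- the same in `Fin n → ℝ` -/
theorem cov_pi (g : (Fin n → ℝ) → ℝ≥0∞) :
    ∫⁻ z in {z : Fin n → ℝ | ∀ i, |z i| < 1}, g z =
      ∫⁻ y : Fin n → ℝ, ENNReal.ofReal (∏ i, vv (y i)) * g fun i => Real.tanh (y i) := by
  let F : (Fin n → ℝ) → (Fin n → ℝ) := fun y i => Real.tanh (y i)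
  let F' : (Fin n → ℝ) → (Fin n → ℝ) →L[ℝ] (Fin n → ℝ) := fun y =>
    ContinuousLinearMap.pi fun i => (vv (y i) • ContinuousLinearMap.id ℝ ℝ).comp
      (ContinuousLinearMap.proj i)
  have hF : ∀ y ∈ (univ : Set (Fin n → ℝ)), HasFDerivWithinAt F (F' y) univ y := by
    intro y _
    rw [hasFDerivWithinAt_univ]
    refine hasFDerivAt_pi.2 fun i => ?_
    have h1 := (tanh_der (y i)).hasFDerivAt.comp y (ContinuousLinearMap.proj (R := ℝ) i).hasFDerivAt
    have e : vv (y i) • ContinuousLinearMap.id ℝ ℝ =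
        ContinuousLinearMap.toSpanSingleton ℝ (vv (y i)) := by
      ext
      simp
    show HasFDerivAt (fun y => F y i) ((vv (y i) • ContinuousLinearMap.id ℝ ℝ).comp
      (ContinuousLinearMap.proj i)) y
    rw [e]
    exact h1
  have hinj : InjOn F univ := by
    intro x _ y _ h
    funext i
    exact Real.tanh_injective (congrFun h i)
  have himg : F '' univ = {z : Fin n → ℝ | ∀ i, |z i| < 1} := by
    ext z
    constructor
    · rintro ⟨y, -, rfl⟩ i
      exact tanh_abs _
    · intro hz
      refine ⟨fun i => Real.artanh (z i), mem_univ _, ?_⟩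
      funext i
      exact Real.tanh_artanh (abs_lt.1 (hz i))
  have h := lintegral_image_eq_lintegral_abs_det_fderiv_mul volume MeasurableSet.univ hF hinj g
  rw [himg, Measure.restrict_univ] at h
  rw [h]
  refine lintegral_congr fun y => ?_
  have hdet : (F' y).det = ∏ i, vv (y i) := by
    show (ContinuousLinearMap.pi fun i => (vv (y i) • ContinuousLinearMap.id ℝ ℝ).comp
      (ContinuousLinearMap.proj i)).det = _
    rw [ContinuousLinearMap.det_pi]
    refine Finset.prod_congr rfl fun i _ => ?_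
    simp
  rw [hdet, abs_of_pos (Finset.prod_pos fun i _ => vv_pos _)]

theorem cov (g : Eu (Fin n) → ℝ≥0∞) :
    ∫⁻ z in cube n, g z = ∫⁻ y, ENNReal.ofReal (ww y) * g (TH y) := by
  have hp := PiLp.volume_preserving_toLp (Fin n)
  have h1 : ∫⁻ z in cube n, g z = ∫⁻ z in {z : Fin n → ℝ | ∀ i, |z i| < 1}, g (WithLp.toLp 2 z) := by
    have h := (hp.setLIntegral_comp_preimage_emb
      (MeasurableEquiv.toLp 2 (Fin n → ℝ)).measurableEmbedding g (cube n))
    exact h.symm
  have h2 : ∫⁻ y, ENNReal.ofReal (ww y) * g (TH y) =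
      ∫⁻ y : Fin n → ℝ, ENNReal.ofReal (∏ i, vv (y i)) *
        g (WithLp.toLp 2 fun i => Real.tanh (y i)) := by
    have h := hp.lintegral_comp_emb (MeasurableEquiv.toLp 2 (Fin n → ℝ)).measurableEmbedding
      (fun y => ENNReal.ofReal (ww y) * g (TH y))
    exact h.symm
  rw [h1, h2, cov_pi]

end Pool.Agent.U959.LB
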