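import Pool.Agent.U959.LB.Lip
import Pool.Agent.Y151.PV.Hyp
import Pool.Agent.R656.OP2.Core
import Pool.Agent.R310.OP2.Body

/-!
# Lipschitz bodies in the Hilbert metric: hyperplane sections
-/

set_option autoImplicit false

namespace Pool.Agent.U959.LB

open MeasureTheory Set Filter Topology
open scoped ENNReal InnerProductSpace Pointwise
open Pool.Agent.W695.KH (Eu EV VV Sm sec PerLe sec_bound perim)
open Pool.Agent.W932.KH (closure_ae EV_scale)
open Pool.Agent.Y151.PV (EV_closure)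

variable {n : ℕ}

theorem HC.integ {Ω : Set (Eu (Fin n))} (h : HC Ω) {φ : Eu (Fin n) → ℝ} (hφ : Continuous φ) :
    IntegrableOn φ Ω :=
  (hφ.continuousOn.integrableOn_compact (isCompact_closedBall (0 : Eu (Fin n)) n)).mono_set
    (h.sub.trans cube_sub_ball)

theorem coord_der (i : Fin n) (z : Eu (Fin n)) :
    fderiv ℝ (fun x : Eu (Fin n) => x i) z = EuclideanSpace.proj i :=
  (EuclideanSpace.proj (𝕜 := ℝ) i : Eu (Fin n) →L[ℝ] ℝ).fderiv

/-- `E x_i² ≤ 1/3` -/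
theorem sq_le {Ω : Set (Eu (Fin n))} (h : HC Ω) (hne : Ω.Nonempty) (hs : ∀ x ∈ Ω, -x ∈ Ω)
    (i : Fin n) : 3 * ∫ x in Ω, x i ^ 2 ≤ (volume Ω).toReal := by
  have hV := h.vol_pos hne
  have hd : ContDiff ℝ 1 fun x : Eu (Fin n) => x i := by fun_prop
  have h1 := poin h hne (fun x => x i) hd
  have h2 : ∫ x in Ω, x i = 0 := by
    have hO : (fun x : Eu (Fin n) => -x) ⁻¹' Ω = Ω := by
      ext x
      constructor
      · intro hx
        have := hs _ hx
        rwa [neg_neg] at this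
      · intro hx
        exact hs x hx
    have h3 := (Measure.measurePreserving_neg (volume : Measure (Eu (Fin n)))).setIntegral_preimage_emb
      (MeasurableEquiv.neg (Eu (Fin n))).measurableEmbedding (fun x => x i) Ω
    have h4 : ∫ x in Ω, (-x) i = ∫ x in Ω, x i := by
      rw [← h3]
      congr 1
      exact congrArg _ hO.symm
    have h5 : ∫ x in Ω, (-x) i = -∫ x in Ω, x i := by
      rw [← integral_neg]
      rfl
    linarith
  have h3 : ∀ z, en (fun x : Eu (Fin n) => x i) z = 1 - z i ^ 2 := by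
    intro z
    unfold en pd
    rw [coord_der]
    rw [Finset.sum_eq_single i]
    · simp
    · intro j _ hj
      have : (EuclideanSpace.proj i : Eu (Fin n) →L[ℝ] ℝ) (EuclideanSpace.single j 1) = 0 := by
        simp [Ne.symm hj]
      rw [this]
      ring
    · intro hh
      exact absurd (Finset.mem_univ i) hh
  have h4 : en (fun x : Eu (Fin n) => x i) = fun z => 1 - z i ^ 2 := funext h3
  rw [h4] at h1
  unfold VV EV at h1
  rw [h2] at h1
  have i1 : IntegrableOn (fun _ : Eu (Fin n) => (1 : ℝ)) Ω := h.integ continuous_const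
  have i2 : IntegrableOn (fun x : Eu (Fin n) => x i ^ 2) Ω := h.integ (by fun_prop)
  rw [integral_sub i1 i2, setIntegral_const, smul_eq_mul, mul_one] at h1
  have hreal : volume.real Ω = (volume Ω).toReal := rfl
  rw [hreal] at h1
  obtain ⟨V, hVd⟩ : ∃ V, V = (volume Ω).toReal := ⟨_, rfl⟩
  obtain ⟨q, hq⟩ : ∃ q, q = ∫ x in Ω, x i ^ 2 := ⟨_, rfl⟩
  rw [← hVd, ← hq] at h1 ⊢
  rw [← hVd] at hV
  have h5 : q / V - (0 / V) ^ 2 = q / V := by simp
  rw [h5] at h1
  have h6 : 1 / 2 * ((V - q) / V) = (V - q) / 2 / V := by ring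
  rw [h6, div_le_div_iff_of_pos_right hV] at h1
  linarith

/-- the direction -/
noncomputable def dir (n : ℕ) : Eu (Fin n) := WithLp.toLp 2 fun _ => (Real.sqrt n)⁻¹

theorem dir_norm (hn : 1 ≤ n) : ‖dir n‖ = 1 := by
  have hn0 : (0 : ℝ) < n := by exact_mod_cast hn
  have h1 : ‖dir n‖ ^ 2 = 1 := by
    rw [EuclideanSpace.real_norm_sq_eq]
    have : ∀ i : Fin n, dir n i ^ 2 = (n : ℝ)⁻¹ := by
      intro i
      show ((Real.sqrt n)⁻¹) ^ 2 = _
      rw [inv_pow, Real.sq_sqrt hn0.le]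
    simp only [this]
    rw [Finset.sum_const, Finset.card_univ, Fintype.card_fin, nsmul_eq_mul]
    field_simp
  have h2 := norm_nonneg (dir n)
  nlinarith

theorem dir_inner (x : Eu (Fin n)) : ⟪dir n, x⟫_ℝ = (Real.sqrt n)⁻¹ * ∑ i, x i := by
  rw [PiLp.inner_apply, Finset.mul_sum]
  refine Finset.sum_congr rfl fun i _ => ?_
  show x i * (Real.sqrt n)⁻¹ = _
  ring

theorem low {Ω : Set (Eu (Fin n))} (h : HF Ω) (hn : 1 ≤ n) (hne : Ω.Nonempty)
    (hs : ∀ x ∈ Ω, -x ∈ Ω) : 1 / 3 ≤ EV Ω fun x => ⟪dir n, x⟫_ℝ ^ 2 := by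
  have hn0 : (0 : ℝ) < n := by exact_mod_cast hn
  have hV := h.vol_pos hne
  have h1 := flow_id h
  have i1 : IntegrableOn (fun x : Eu (Fin n) => ∑ i, (1 - x i ^ 2)) Ω := h.integ (by fun_prop)
  have i2 : IntegrableOn (fun x : Eu (Fin n) => 2 * (∑ i, x i) ^ 2) Ω := h.integ (by fun_prop)
  rw [integral_sub i1 i2, integral_const_mul] at h1
  have h2 : ∫ x in Ω, ∑ i, (1 - x i ^ 2) = ∑ i, ((volume Ω).toReal - ∫ x in Ω, x i ^ 2) := by
    rw [integral_finsetSum]
    · refine Finset.sum_congr rfl fun i _ => ?_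
      have j1 : IntegrableOn (fun _ : Eu (Fin n) => (1 : ℝ)) Ω := h.integ continuous_const
      have j2 : IntegrableOn (fun x : Eu (Fin n) => x i ^ 2) Ω := h.integ (by fun_prop)
      rw [integral_sub j1 j2, setIntegral_const, smul_eq_mul, mul_one]
      rfl
    · intro i _
      exact h.integ (by fun_prop)
  have h3 : ∑ _i : Fin n, (2 / 3 * (volume Ω).toReal) ≤
      ∑ i, ((volume Ω).toReal - ∫ x in Ω, x i ^ 2) := by
    refine Finset.sum_le_sum fun i _ => ?_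
    have := sq_le h.toHC hne hs i
    linarith
  rw [Finset.sum_const, Finset.card_univ, Fintype.card_fin, nsmul_eq_mul] at h3
  have h4 : (fun x : Eu (Fin n) => ⟪dir n, x⟫_ℝ ^ 2) = fun x => (n : ℝ)⁻¹ * (∑ i, x i) ^ 2 := by
    funext x
    rw [dir_inner, mul_pow, inv_pow, Real.sq_sqrt hn0.le]
  rw [h4]
  unfold EV
  rw [integral_const_mul, le_div_iff₀ hV]
  have h5 : (n : ℝ) / 3 * (volume Ω).toReal ≤ ∫ x in Ω, (∑ i, x i) ^ 2 := by
    rw [h2] at h1
    linarith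
  calc 1 / 3 * (volume Ω).toReal = (n : ℝ)⁻¹ * ((n : ℝ) / 3 * (volume Ω).toReal) := by
        field_simp
    _ ≤ (n : ℝ)⁻¹ * ∫ x in Ω, (∑ i, x i) ^ 2 := by gcongr

/-- the `L¹` inequality at all scales -/
theorem scaled {Ω : Set (Eu (Fin n))} (h : HC Ω) (hne : Ω.Nonempty) (r : ℝ) (hr0 : 0 < r)
    (hr1 : r < 1) (f : Eu (Fin n) → ℝ) (L M : ℝ) (hf : Sm f L M) (hf12 : ∀ x, |f x| ≤ 1 / 2) :
    VV (r • closure Ω) f ≤
      4 * Real.sqrt (1 / 2) * EV (r • closure Ω) fun x => ‖fderiv ℝ f x‖ := by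
  have ho := h.op
  have hconv := h.cv
  have hcomp : IsCompact (closure Ω) := h.bdd.isCompact_closure
  have hpos : 0 < volume (closure Ω) :=
    lt_of_lt_of_le (ho.measure_pos volume hne) (measure_mono subset_closure)
  have hbod := Pool.Agent.R310.OP2.Body.bodl Pool.Agent.R656.OP2.t_corl (Fin n) (closure Ω) hcomp
    hconv.closure hpos (1 / 2) (by norm_num) (by
      intro v hv
      unfold VV
      rw [EV_closure ho hconv, EV_closure ho hconv, EV_closure ho hconv]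
      exact poin_grad h hne v hv)
  have hdiff : ∀ x, DifferentiableAt ℝ f x := fun x => (hf.diff.differentiable one_ne_zero) x
  have hfd : ∀ x : Eu (Fin n), fderiv ℝ (fun y => f (r • y)) x = r • fderiv ℝ f (r • x) := by
    intro x
    have h1 : HasFDerivAt (fun y : Eu (Fin n) => r • y) (r • ContinuousLinearMap.id ℝ _) x :=
      (hasFDerivAt_id x).const_smul r
    have h2 := (hdiff (r • x)).hasFDerivAt.comp x h1
    have h3 := h2.fderiv
    have h4 : (f ∘ fun y : Eu (Fin n) => r • y) = fun y => f (r • y) := rfl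
    rw [h4] at h3
    rw [h3]
    ext v
    simp
  have hnorm : ∀ x : Eu (Fin n), ‖fderiv ℝ (fun y => f (r • y)) x‖ = r * ‖fderiv ℝ f (r • x)‖ := by
    intro x
    rw [hfd, norm_smul, Real.norm_eq_abs, abs_of_pos hr0]
  have hS : Sm (fun y => f (r • y)) (r * L) (r * (M * r)) := by
    refine ⟨fun x => hf.bdd _, hf.diff.comp (contDiff_const_smul r), fun x => ?_, fun x y => ?_⟩
    · rw [hnorm]
      exact mul_le_mul_of_nonneg_left (hf.grad _) hr0.le
    · rw [hfd, hfd, ← smul_sub, norm_smul, Real.norm_eq_abs, abs_of_pos hr0]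
      have h1 := hf.lip (r • x) (r • y)
      rw [← smul_sub, norm_smul, Real.norm_eq_abs, abs_of_pos hr0] at h1
      calc r * ‖fderiv ℝ f (r • x) - fderiv ℝ f (r • y)‖ ≤ r * (M * (r * ‖x - y‖)) :=
            mul_le_mul_of_nonneg_left h1 hr0.le
        _ = r * (M * r) * ‖x - y‖ := by ring
  have h1 := hbod (fun y => f (r • y)) _ _ hS fun x => hf12 _
  have e1 : VV (r • closure Ω) f = VV (closure Ω) fun y => f (r • y) := by
    unfold VV
    rw [EV_scale ho hconv r hr0, EV_scale ho hconv r hr0, EV_closure ho hconv,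
      EV_closure ho hconv]
  rw [e1]
  refine h1.trans (mul_le_mul_of_nonneg_left ?_ (by positivity))
  rw [EV_scale ho hconv r hr0, EV_closure ho hconv]
  have hc1 : Continuous fun x : Eu (Fin n) => ‖fderiv ℝ f (r • x)‖ :=
    ((hf.diff.continuous_fderiv one_ne_zero).comp (continuous_const_smul r)).norm
  have e2 : (fun x => ‖fderiv ℝ (fun y => f (r • y)) x‖) = fun x => r * ‖fderiv ℝ f (r • x)‖ :=
    funext hnorm
  rw [e2]
  refine EV_mono h (continuous_const.mul hc1) hc1 fun x _ => ?_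
  have := norm_nonneg (fderiv ℝ f (r • x))
  nlinarith

/-- **hyperplane sections** for the class -/
theorem hyp : ∃ C : ℝ, 0 < C ∧ ∀ (n : ℕ) (Ω : Set (Eu (Fin n))), 1 ≤ n → HF Ω →
    (0 : Eu (Fin n)) ∈ Ω → (∀ x ∈ Ω, -x ∈ Ω) →
    ∀ E : Set (Eu (Fin n)), MeasurableSet E → E ⊆ Ω → volume E = volume Ω / 2 → ∀ P : ℝ,
    PerLe Ω E P → sec Ω (dir n) ≤ ENNReal.ofReal (C * P) := by
  obtain ⟨Cs, hCs, hs⟩ := sec_bound
  obtain ⟨c0, hc0⟩ : ∃ c0 : ℝ, c0 = 4 * Real.sqrt (1 / 2) := ⟨_, rfl⟩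
  have hc0p : 0 < c0 := by rw [hc0]; positivity
  refine ⟨Real.sqrt (3 * Cs) * (15 / 2 * c0), by positivity, ?_⟩
  intro n Ω hn h h0 hsym E hE hEΩ hEvol P hP
  have ho := h.op
  have hconv := h.cv
  have hbd := h.bdd
  have hne : Ω.Nonempty := ⟨0, h0⟩
  have hV := h.vol_pos hne
  have key : (volume Ω).toReal ≤ 3 * (5 / 2 * c0) * P := by
    refine perim (Fin n) Ω ho hconv hbd h0 E hE hEΩ hEvol P hP (5 / 2 * c0) (by positivity) ?_
    intro r hr0 hr1 f L M hf hf12 hVV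
    have h1 := scaled h.toHC hne r hr0 hr1 f L M hf hf12
    rw [← hc0] at h1
    obtain ⟨V, hVd⟩ : ∃ V, V = VV (r • closure Ω) f := ⟨_, rfl⟩
    obtain ⟨Y, hYd⟩ : ∃ Y, Y = EV (r • closure Ω) fun x => ‖fderiv ℝ f x‖ := ⟨_, rfl⟩
    rw [← hVd, ← hYd] at h1 ⊢
    rw [← hVd] at hVV
    have h3 : 5 / 2 * c0 * Y = 5 / 2 * (c0 * Y) := by ring
    rw [h3]
    nlinarith
  have ha := dir_norm hn
  obtain ⟨hsec1, hsec2, -⟩ := hs (Fin n) Ω ho hconv hbd h0 hsym (dir n) ha
  have hlow := low h hn hne hsym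
  have hPpos : 0 < P := by
    by_contra hcon
    push Not at hcon
    have : 3 * (5 / 2 * c0) * P ≤ 0 := mul_nonpos_of_nonneg_of_nonpos (by positivity) hcon
    linarith
  obtain ⟨s, hsd⟩ : ∃ s, s = (sec Ω (dir n)).toReal := ⟨_, rfl⟩
  obtain ⟨V, hVd⟩ : ∃ V, V = (volume Ω).toReal := ⟨_, rfl⟩
  rw [← hsd, ← hVd] at hsec2
  rw [← hVd] at key hV
  have h3 : s ^ 2 ≤ 3 * Cs * V ^ 2 := by
    have := mul_le_mul_of_nonneg_left hlow (sq_nonneg s)
    linarith
  have h4 : V ^ 2 ≤ (15 / 2 * c0 * P) ^ 2 := by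
    refine pow_le_pow_left₀ hV.le ?_ 2
    linarith
  have h5 : s ^ 2 ≤ (Real.sqrt (3 * Cs) * (15 / 2 * c0) * P) ^ 2 := by
    have e : (Real.sqrt (3 * Cs) * (15 / 2 * c0) * P) ^ 2 = 3 * Cs * (15 / 2 * c0 * P) ^ 2 := by
      have := Real.sq_sqrt (by positivity : 0 ≤ 3 * Cs)
      calc (Real.sqrt (3 * Cs) * (15 / 2 * c0) * P) ^ 2 =
          Real.sqrt (3 * Cs) ^ 2 * (15 / 2 * c0 * P) ^ 2 := by ring
        _ = _ := by rw [this]
    rw [e]
    exact h3.trans (mul_le_mul_of_nonneg_left h4 (by positivity))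
  have h7 : s ≤ Real.sqrt (3 * Cs) * (15 / 2 * c0) * P := le_of_sq_le_sq h5 (by positivity)
  rw [← ENNReal.ofReal_toReal hsec1, ← hsd]
  exact ENNReal.ofReal_le_ofReal h7

end Pool.Agent.U959.LB
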