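import Pool.Agent.U959.LB.Cov

/-!
# Lipschitz bodies in the Hilbert metric: the identity of the flow `z' = 1 - z²`
-/

set_option autoImplicit false

namespace Pool.Agent.U959.LB

open MeasureTheory Set Filter Topology
open scoped ENNReal
open Pool.Agent.W695.KH (Eu)

variable {n : ℕ}

/-- Moebius translation -/
noncomputable def mob (τ z : ℝ) : ℝ := (z + τ) / (1 + τ * z)

/-- its derivative -/
noncomputable def mob' (τ z : ℝ) : ℝ := (1 - τ ^ 2) / (1 + τ * z) ^ 2

theorem mden {τ z : ℝ} (hτ : |τ| < 1) (hz : |z| < 1) : 0 < 1 + τ * z := by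
  have h1 : |τ * z| < 1 := by
    rw [abs_mul]
    nlinarith [abs_nonneg τ, abs_nonneg z]
  linarith [(abs_lt.1 h1).1]

theorem mob_der {τ z : ℝ} (hτ : |τ| < 1) (hz : |z| < 1) : HasDerivAt (mob τ) (mob' τ z) z := by
  have h0 := mden hτ hz
  have h1 : HasDerivAt (fun z : ℝ => z + τ) 1 z := (hasDerivAt_id z).add_const τ
  have h2 : HasDerivAt (fun z : ℝ => 1 + τ * z) τ z := by
    have := ((hasDerivAt_id z).const_mul τ).const_add 1
    simpa using this
  have h3 := h1.div h2 h0.ne'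
  have e : (1 * (1 + τ * z) - (z + τ) * τ) / (1 + τ * z) ^ 2 = mob' τ z := by
    unfold mob'
    congr 1
    ring
  rw [e] at h3
  exact h3

theorem mob_tanh {τ : ℝ} (hτ : |τ| < 1) (y : ℝ) :
    mob τ (Real.tanh y) = Real.tanh (y + Real.artanh τ) := by
  have h1 : τ = Real.tanh (Real.artanh τ) := (Real.tanh_artanh (abs_lt.1 hτ)).symm
  obtain ⟨t, ht⟩ : ∃ t, t = Real.artanh τ := ⟨_, rfl⟩
  rw [← ht] at h1 ⊢
  rw [h1]
  unfold mob
  rw [Real.tanh_eq_sinh_div_cosh, Real.tanh_eq_sinh_div_cosh, Real.tanh_eq_sinh_div_cosh,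
    Real.sinh_add, Real.cosh_add]
  have h2 := (Real.cosh_pos y).ne'
  have h3 := (Real.cosh_pos t).ne'
  have h4 : Real.cosh y * Real.cosh t + Real.sinh y * Real.sinh t ≠ 0 := by
    rw [← Real.cosh_add]
    exact (Real.cosh_pos _).ne'
  have h5 : 1 + Real.sinh t / Real.cosh t * (Real.sinh y / Real.cosh y) =
      (Real.cosh y * Real.cosh t + Real.sinh y * Real.sinh t) / (Real.cosh y * Real.cosh t) := by
    field_simp
  rw [h5]
  field_simp

theorem mob_inj {τ : ℝ} (hτ : |τ| < 1) {z w : ℝ} (hz : |z| < 1) (hw : |w| < 1)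
    (h : mob τ z = mob τ w) : z = w := by
  have h1 := mden hτ hz
  have h2 := mden hτ hw
  unfold mob at h
  rw [div_eq_div_iff h1.ne' h2.ne'] at h
  have h3 : (1 - τ ^ 2) * (z - w) = 0 := by ring_nf; ring_nf at h; linarith
  have h4 : τ ^ 2 < 1 := by
    rw [← sq_abs]
    exact pow_lt_one₀ (abs_nonneg _) hτ two_ne_zero
  rcases mul_eq_zero.1 h3 with h5 | h5
  · linarith
  · linarith

/-- change of variables by the flow, in `Fin n → ℝ` -/
theorem flow_pi {S : Set (Fin n → ℝ)} (hS : MeasurableSet S) (hc : ∀ z ∈ S, ∀ i, |z i| < 1)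
    {τ : ℝ} (hτ : |τ| < 1) (himg : (fun z : Fin n → ℝ => fun i => mob τ (z i)) '' S = S)
    (g : (Fin n → ℝ) → ℝ) :
    ∫ z in S, g z = ∫ z in S, (∏ i, mob' τ (z i)) * g fun i => mob τ (z i) := by
  let F : (Fin n → ℝ) → (Fin n → ℝ) := fun y i => mob τ (y i)
  let F' : (Fin n → ℝ) → (Fin n → ℝ) →L[ℝ] (Fin n → ℝ) := fun y =>
    ContinuousLinearMap.pi fun i => (mob' τ (y i) • ContinuousLinearMap.id ℝ ℝ).comp
      (ContinuousLinearMap.proj i)
  have hF : ∀ y ∈ S, HasFDerivWithinAt F (F' y) S y := by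
    intro y hy
    refine HasFDerivAt.hasFDerivWithinAt ?_
    refine hasFDerivAt_pi.2 fun i => ?_
    have h1 := (mob_der hτ (hc y hy i)).hasFDerivAt.comp y
      (ContinuousLinearMap.proj (R := ℝ) i).hasFDerivAt
    have e : mob' τ (y i) • ContinuousLinearMap.id ℝ ℝ =
        ContinuousLinearMap.toSpanSingleton ℝ (mob' τ (y i)) := by
      ext
      simp
    show HasFDerivAt (fun y => F y i) ((mob' τ (y i) • ContinuousLinearMap.id ℝ ℝ).comp
      (ContinuousLinearMap.proj i)) y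
    rw [e]
    exact h1
  have hinj : InjOn F S := by
    intro x hx y hy h
    funext i
    exact mob_inj hτ (hc x hx i) (hc y hy i) (congrFun h i)
  have h := integral_image_eq_integral_abs_det_fderiv_smul volume hS hF hinj g
  have himg' : F '' S = S := himg
  rw [himg'] at h
  rw [h]
  refine setIntegral_congr_fun hS fun y hy => ?_
  have hdet : (F' y).det = ∏ i, mob' τ (y i) := by
    show (ContinuousLinearMap.pi fun i => (mob' τ (y i) • ContinuousLinearMap.id ℝ ℝ).comp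
      (ContinuousLinearMap.proj i)).det = _
    rw [ContinuousLinearMap.det_pi]
    refine Finset.prod_congr rfl fun i _ => ?_
    simp
  have hpos : 0 ≤ ∏ i, mob' τ (y i) := Finset.prod_nonneg fun i _ => by
    unfold mob'
    have h4 : τ ^ 2 < 1 := by
      rw [← sq_abs]
      exact pow_lt_one₀ (abs_nonneg _) hτ two_ne_zero
    have := mden hτ (hc y hy i)
    exact div_nonneg (by linarith) (by positivity)
  show |(F' y).det| • g (F y) = _
  rw [hdet, abs_of_nonneg hpos, smul_eq_mul]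

/-- the same in Euclidean space -/
theorem flow_eu {Ω : Set (Eu (Fin n))} (ho : IsOpen Ω) (hsub : Ω ⊆ cube n)
    (htr : ∀ (y : Eu (Fin n)) (t : ℝ), TH y ∈ Ω → TH (WithLp.toLp 2 fun i => y i + t) ∈ Ω)
    {τ : ℝ} (hτ : |τ| < 1) (g : Eu (Fin n) → ℝ) :
    ∫ z in Ω, g z = ∫ z in Ω, (∏ i, mob' τ (z i)) * g (WithLp.toLp 2 fun i => mob τ (z i)) := by
  have hp := PiLp.volume_preserving_toLp (Fin n)
  have hemb := (MeasurableEquiv.toLp 2 (Fin n → ℝ)).measurableEmbedding
  have e1 : ∀ φ : Eu (Fin n) → ℝ, ∫ z in Ω, φ z =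
      ∫ z in (WithLp.toLp 2 ⁻¹' Ω : Set (Fin n → ℝ)), φ (WithLp.toLp 2 z) := by
    intro φ
    exact (hp.setIntegral_preimage_emb hemb φ Ω).symm
  rw [e1, e1]
  have hS : MeasurableSet (WithLp.toLp 2 ⁻¹' Ω : Set (Fin n → ℝ)) :=
    hp.measurable ho.measurableSet
  have hc : ∀ z ∈ (WithLp.toLp 2 ⁻¹' Ω : Set (Fin n → ℝ)), ∀ i, |z i| < 1 := fun z hz i =>
    hsub hz i
  refine flow_pi hS hc hτ ?_ fun z => g (WithLp.toLp 2 z)
  -- every point of `Ω` is a translate
  have hmove : ∀ (σ : ℝ), |σ| < 1 → ∀ z ∈ (WithLp.toLp 2 ⁻¹' Ω : Set (Fin n → ℝ)),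
      (fun i => mob σ (z i)) ∈ (WithLp.toLp 2 ⁻¹' Ω : Set (Fin n → ℝ)) := by
    intro σ hσ z hz
    have h1 : TH (WithLp.toLp 2 fun i => Real.artanh (z i)) = WithLp.toLp 2 z := by
      ext i
      rw [TH_apply]
      exact Real.tanh_artanh (abs_lt.1 (hc z hz i))
    have h2 := htr (WithLp.toLp 2 fun i => Real.artanh (z i)) (Real.artanh σ) (by
      rw [h1]; exact hz)
    have h3 : TH (WithLp.toLp 2 fun i =>
        (WithLp.toLp 2 fun i => Real.artanh (z i) : Eu (Fin n)) i + Real.artanh σ) =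
        WithLp.toLp 2 fun i => mob σ (z i) := by
      ext i
      rw [TH_apply]
      show Real.tanh (Real.artanh (z i) + Real.artanh σ) = mob σ (z i)
      rw [← mob_tanh hσ, Real.tanh_artanh (abs_lt.1 (hc z hz i))]
    rw [h3] at h2
    exact h2
  ext z
  constructor
  · rintro ⟨w, hw, rfl⟩
    exact hmove τ hτ w hw
  · intro hz
    have hτ' : |(-τ)| < 1 := by rwa [abs_neg]
    refine ⟨fun i => mob (-τ) (z i), hmove (-τ) hτ' z hz, ?_⟩
    funext i
    show mob τ (mob (-τ) (z i)) = z i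
    have h1 := mden hτ' (hc z hz i)
    unfold mob
    have h4 : τ ^ 2 < 1 := by
      rw [← sq_abs]
      exact pow_lt_one₀ (abs_nonneg _) hτ two_ne_zero
    obtain ⟨d, hd⟩ : ∃ d, d = 1 + -τ * z i := ⟨_, rfl⟩
    rw [← hd] at h1 ⊢
    have hd0 : d ≠ 0 := h1.ne'
    have h5 : 1 + τ * ((z i + -τ) / d) = (1 - τ ^ 2) / d := by
      rw [eq_div_iff hd0, add_mul, one_mul, mul_assoc, div_mul_cancel₀ _ hd0, hd]
      ring
    rw [h5]
    have h6 : 1 - τ ^ 2 ≠ 0 := by linarith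
    have h7 : (z i + -τ) / d + τ = z i * (1 - τ ^ 2) / d := by
      rw [eq_div_iff hd0, add_mul, div_mul_cancel₀ _ hd0, hd]
      ring
    rw [h7]
    field_simp

end Pool.Agent.U959.LB
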