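import Mathlib

/-!
# Lipschitz bodies in the Hilbert metric: one-dimensional facts

`Real.tanh` maps the line onto `(-1, 1)`; `vv y = 1 - tanh² y`. For `m = tanh ((a + b) / 2)`,
`z = tanh a`, the defect `qq a b` of midpoint log-concavity satisfies `vv a * vv b = vv(mid)² (1 - q)²`,
`(z - m)² = q (1 - m² - 2 m (z - m))`.
-/

set_option autoImplicit false

namespace Pool.Agent.U959.LB

open Real

/-- density `1 - tanh²` -/
noncomputable def vv (y : ℝ) : ℝ := 1 - tanh y ^ 2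

/-- the defect -/
noncomputable def qq (a b : ℝ) : ℝ :=
  sinh ((a - b) / 2) ^ 2 / (cosh ((a + b) / 2) ^ 2 + sinh ((a - b) / 2) ^ 2)

theorem vv_eq (y : ℝ) : vv y = 1 / cosh y ^ 2 := by
  unfold vv
  rw [tanh_eq_sinh_div_cosh, div_pow]
  have h := cosh_sq y
  have h1 : cosh y ^ 2 ≠ 0 := pow_ne_zero _ (cosh_pos y).ne'
  field_simp
  linarith

theorem vv_pos (y : ℝ) : 0 < vv y := by
  rw [vv_eq]
  have := cosh_pos y
  positivity

theorem vv_le (y : ℝ) : vv y ≤ 1 := by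
  unfold vv
  nlinarith [sq_nonneg (tanh y)]

theorem tanh_der (y : ℝ) : HasDerivAt tanh (vv y) y := by
  have h1 : tanh = fun y => sinh y / cosh y := by
    funext y
    exact tanh_eq_sinh_div_cosh y
  rw [h1, vv_eq]
  have h := (hasDerivAt_sinh y).div (hasDerivAt_cosh y) (cosh_pos y).ne'
  have h2 := cosh_sq y
  have e : (cosh y * cosh y - sinh y * sinh y) / cosh y ^ 2 = 1 / cosh y ^ 2 := by
    congr 1
    nlinarith
  rw [e] at h
  exact h

theorem tanh_cont : Continuous tanh := continuous_iff_continuousAt.2 fun y => (tanh_der y).continuousAt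

theorem tanh_abs (y : ℝ) : |tanh y| < 1 := by
  rw [abs_lt]
  exact tanh_bijOn.mapsTo (Set.mem_univ y)

theorem den_pos (a b : ℝ) : 0 < cosh ((a + b) / 2) ^ 2 + sinh ((a - b) / 2) ^ 2 := by
  have := cosh_pos ((a + b) / 2)
  positivity

theorem qq_nonneg (a b : ℝ) : 0 ≤ qq a b := by
  unfold qq
  have := den_pos a b
  positivity

theorem qq_lt (a b : ℝ) : qq a b < 1 := by
  unfold qq
  rw [div_lt_one (den_pos a b)]
  have := cosh_pos ((a + b) / 2)
  have : 0 < cosh ((a + b) / 2) ^ 2 := by positivity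
  linarith

theorem mid_eq (a b : ℝ) : vv a * vv b = vv ((a + b) / 2) ^ 2 * (1 - qq a b) ^ 2 := by
  rw [vv_eq, vv_eq, vv_eq]
  unfold qq
  obtain ⟨m, hm⟩ : ∃ m, m = (a + b) / 2 := ⟨_, rfl⟩
  obtain ⟨t, ht⟩ : ∃ t, t = (a - b) / 2 := ⟨_, rfl⟩
  rw [← hm, ← ht]
  have ha : a = m + t := by rw [hm, ht]; ring
  have hb : b = m - t := by rw [hm, ht]; ring
  have hc : cosh a * cosh b = cosh m ^ 2 + sinh t ^ 2 := by
    rw [ha, hb, cosh_add, cosh_sub]
    have h1 := cosh_sq m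
    have h2 := cosh_sq t
    have h3 : (cosh m * cosh t + sinh m * sinh t) * (cosh m * cosh t - sinh m * sinh t) =
      cosh m ^ 2 * cosh t ^ 2 - sinh m ^ 2 * sinh t ^ 2 := by ring
    rw [h3, h2, h1]
    ring
  have hm0 := cosh_pos m
  have hd : 0 < cosh m ^ 2 + sinh t ^ 2 := by positivity
  have e1 : 1 / cosh a ^ 2 * (1 / cosh b ^ 2) = 1 / (cosh a * cosh b) ^ 2 := by
    rw [mul_pow]
    field_simp
  rw [e1, hc]
  field_simp
  ring

/-- the displacement -/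
theorem disp (a b : ℝ) : (tanh a - tanh ((a + b) / 2)) ^ 2 = qq a b *
    (vv ((a + b) / 2) - 2 * tanh ((a + b) / 2) * (tanh a - tanh ((a + b) / 2))) := by
  unfold qq vv
  obtain ⟨m, hm⟩ : ∃ m, m = (a + b) / 2 := ⟨_, rfl⟩
  obtain ⟨t, ht⟩ : ∃ t, t = (a - b) / 2 := ⟨_, rfl⟩
  rw [← hm, ← ht]
  have ha : a = m + t := by rw [hm, ht]; ring
  have hm0 := cosh_pos m
  have ht0 := cosh_pos t
  have ha0 := cosh_pos a
  have hd : 0 < cosh m ^ 2 + sinh t ^ 2 := by positivity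
  have hca : cosh a = cosh m * cosh t + sinh m * sinh t := by rw [ha, cosh_add]
  have hsa : sinh a = sinh m * cosh t + cosh m * sinh t := by rw [ha, sinh_add]
  have h1 := cosh_sq m
  have h2 := cosh_sq t
  have hdel : tanh a - tanh m = sinh t / (cosh a * cosh m) := by
    rw [tanh_eq_sinh_div_cosh, tanh_eq_sinh_div_cosh, div_sub_div _ _ ha0.ne' hm0.ne']
    congr 1
    rw [hsa, hca]
    have : (sinh m * cosh t + cosh m * sinh t) * cosh m -
      (cosh m * cosh t + sinh m * sinh t) * sinh m = (cosh m ^ 2 - sinh m ^ 2) * sinh t := by ring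
    rw [this, h1]
    ring
  rw [hdel, tanh_eq_sinh_div_cosh]
  have key : (1 - (sinh m / cosh m) ^ 2 - 2 * (sinh m / cosh m) * (sinh t / (cosh a * cosh m))) *
      (cosh a ^ 2 * cosh m ^ 2) = cosh m ^ 2 + sinh t ^ 2 := by
    have e : (1 - (sinh m / cosh m) ^ 2 - 2 * (sinh m / cosh m) * (sinh t / (cosh a * cosh m))) *
      (cosh a ^ 2 * cosh m ^ 2) = cosh a ^ 2 * (cosh m ^ 2 - sinh m ^ 2) -
        2 * sinh m * sinh t * cosh a := by
      field_simp
    rw [e]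
    have e2 : cosh m ^ 2 - sinh m ^ 2 = 1 := by rw [h1]; ring
    rw [e2, hca]
    have e3 : cosh t ^ 2 = sinh t ^ 2 + 1 := h2
    have e4 : cosh m ^ 2 = sinh m ^ 2 + 1 := h1
    have : (cosh m * cosh t + sinh m * sinh t) ^ 2 * 1 -
        2 * sinh m * sinh t * (cosh m * cosh t + sinh m * sinh t) =
        cosh m ^ 2 * cosh t ^ 2 - sinh m ^ 2 * sinh t ^ 2 := by ring
    rw [this, e3, e4]
    ring
  have hX : 1 - (sinh m / cosh m) ^ 2 - 2 * (sinh m / cosh m) * (sinh t / (cosh a * cosh m)) =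
      (cosh m ^ 2 + sinh t ^ 2) / (cosh a ^ 2 * cosh m ^ 2) := by
    rw [eq_div_iff (by positivity)]
    exact key
  rw [hX, div_pow, mul_pow]
  field_simp

theorem factor_pos (a b : ℝ) : 0 < vv ((a + b) / 2) - 2 * tanh ((a + b) / 2) *
    (tanh a - tanh ((a + b) / 2)) := by
  have h1 := (abs_lt.1 (tanh_abs a))
  have h2 := (abs_lt.1 (tanh_abs ((a + b) / 2)))
  unfold vv
  nlinarith [sq_nonneg (tanh ((a + b) / 2) - tanh a)]

theorem factor_le (a b : ℝ) : vv ((a + b) / 2) - 2 * tanh ((a + b) / 2) *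
    (tanh a - tanh ((a + b) / 2)) ≤ 4 := by
  have h1 := (abs_lt.1 (tanh_abs a))
  have h2 := (abs_lt.1 (tanh_abs ((a + b) / 2)))
  unfold vv
  nlinarith

theorem disp_le (a b : ℝ) : (tanh a - tanh ((a + b) / 2)) ^ 2 ≤ 4 * qq a b := by
  rw [disp]
  have h1 := factor_le a b
  have h2 := qq_nonneg a b
  nlinarith

/-- the main one-dimensional inequality -/
theorem one (a b A : ℝ) (hA : 0 ≤ A) (hA1 : A ≤ 1) :
    A * |tanh a - tanh ((a + b) / 2)| ≤
      2 * qq a b + A ^ 2 * (1 + A) ^ 2 * vv ((a + b) / 2) / 8 := by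
  obtain ⟨m, hm⟩ : ∃ m, m = tanh ((a + b) / 2) := ⟨_, rfl⟩
  obtain ⟨D, hD⟩ : ∃ D, D = tanh a - m := ⟨_, rfl⟩
  obtain ⟨q, hq⟩ : ∃ q, q = qq a b := ⟨_, rfl⟩
  obtain ⟨v, hv⟩ : ∃ v, v = vv ((a + b) / 2) := ⟨_, rfl⟩
  have h1 := disp a b
  have h2 := factor_pos a b
  have h3 := qq_nonneg a b
  have hm1 : |m| ≤ 1 := by rw [hm]; exact (tanh_abs _).le
  rw [← hm, ← hq, ← hv, ← hD] at h1
  rw [← hm, ← hv, ← hD] at h2
  rw [← hq] at h3
  rw [← hm, ← hq, ← hv, ← hD]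
  obtain ⟨X, hX⟩ : ∃ X, X = v - 2 * m * D := ⟨_, rfl⟩
  rw [← hX] at h1 h2
  obtain ⟨B, hB⟩ : ∃ B, B = A * (1 + A) := ⟨_, rfl⟩
  have hB0 : 0 ≤ B := by rw [hB]; positivity
  -- `B |D| ≤ 2 q + B² X / 8`
  have h4 : B * |D| ≤ 2 * q + B ^ 2 * X / 8 := by
    have h5 : (B * |D|) ^ 2 ≤ (2 * q + B ^ 2 * X / 8) ^ 2 := by
      have h6 : (B * |D|) ^ 2 = B ^ 2 * (q * X) := by
        rw [mul_pow, sq_abs, h1]
      rw [h6]
      nlinarith [sq_nonneg (2 * q - B ^ 2 * X / 8)]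
    have h7 : 0 ≤ 2 * q + B ^ 2 * X / 8 := by positivity
    exact le_of_sq_le_sq h5 h7
  have h8 : X ≤ v + 2 * |D| := by
    have : -(m * D) ≤ |D| := by
      have h9 : |m * D| ≤ |D| := by
        rw [abs_mul]
        nlinarith [abs_nonneg D]
      linarith [neg_abs_le (m * D)]
    rw [hX]
    linarith
  have h10 : B ^ 2 * X / 8 ≤ B ^ 2 * v / 8 + B ^ 2 * |D| / 4 := by
    have := mul_le_mul_of_nonneg_left h8 (sq_nonneg B)
    linarith
  have h11 : A * |D| ≤ B * |D| - B ^ 2 * |D| / 4 := by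
    have h12 : A ≤ B - B ^ 2 / 4 := by
      rw [hB]
      have h13 : (1 + A) ^ 2 ≤ 4 := by nlinarith
      have h14 : (A * (1 + A)) ^ 2 / 4 ≤ A ^ 2 := by
        rw [mul_pow]
        nlinarith [sq_nonneg A]
      nlinarith
    have := mul_le_mul_of_nonneg_right h12 (abs_nonneg D)
    nlinarith
  have h15 : B ^ 2 * v / 8 = A ^ 2 * (1 + A) ^ 2 * v / 8 := by rw [hB]; ring
  linarith

end Pool.Agent.U959.LB
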