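import Pool.Agent.U959.LB.Low

/-!
# Lipschitz bodies in the Hilbert metric: they belong to the class
-/

set_option autoImplicit false

namespace Pool.Agent.U959.LB

open MeasureTheory Set Filter Topology
open scoped ENNReal
open Pool.Agent.W695.KH (Eu EV VV)

variable {n : ℕ}

/-- the open body of `d`: `|artanh x_i - artanh x_k| < d(i, k)` -/
def lip (d : Fin n → Fin n → ℝ≥0∞) : Set (Eu (Fin n)) :=
  {x | (∀ i, |x i| < 1) ∧ ∀ i k, ENNReal.ofReal |Real.artanh (x i) - Real.artanh (x k)| < d i k}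

theorem lip_TH (d : Fin n → Fin n → ℝ≥0∞) (y : Eu (Fin n)) :
    TH y ∈ lip d ↔ ∀ i k, ENNReal.ofReal |y i - y k| < d i k := by
  constructor
  · intro h i k
    have := h.2 i k
    rw [TH_apply, TH_apply, Real.artanh_tanh, Real.artanh_tanh] at this
    exact this
  · intro h
    refine ⟨fun i => tanh_abs _, fun i k => ?_⟩
    rw [TH_apply, TH_apply, Real.artanh_tanh, Real.artanh_tanh]
    exact h i k

theorem tanh_lt {x y : ℝ} : Real.tanh x < Real.tanh y ↔ x < y := by
  rw [← Real.artanh_lt_artanh_iff (abs_lt.1 (tanh_abs x)) (abs_lt.1 (tanh_abs y)),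
    Real.artanh_tanh, Real.artanh_tanh]

theorem lt_mob {s t D : ℝ} (hs : |s| < 1) (ht : |t| < 1) :
    Real.artanh t - Real.artanh s < D ↔ t < mob (Real.tanh D) s := by
  have h1 : mob (Real.tanh D) s = Real.tanh (Real.artanh s + D) := by
    conv_lhs => rw [← Real.tanh_artanh (abs_lt.1 hs)]
    rw [mob_tanh (tanh_abs D), Real.artanh_tanh]
  rw [h1]
  conv_rhs => rw [← Real.tanh_artanh (abs_lt.1 ht)]
  rw [tanh_lt]
  constructor <;> intro h <;> linarith

/-- membership, in terms of `τ = tanh d` -/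
theorem lip_iff (d : Fin n → Fin n → ℝ≥0∞) (hd : ∀ i k, 0 < d i k) (x : Eu (Fin n)) :
    x ∈ lip d ↔ (∀ i, |x i| < 1) ∧ ∀ i k, d i k ≠ ⊤ →
      x k < mob (Real.tanh (d i k).toReal) (x i) ∧ x i < mob (Real.tanh (d i k).toReal) (x k) := by
  constructor
  · rintro ⟨h1, h2⟩
    refine ⟨h1, fun i k hk => ?_⟩
    have h3 := h2 i k
    rw [ENNReal.ofReal_lt_iff_lt_toReal (abs_nonneg _) hk, abs_lt] at h3
    rw [← lt_mob (h1 i) (h1 k), ← lt_mob (h1 k) (h1 i)]
    exact ⟨by linarith, h3.2⟩
  · rintro ⟨h1, h2⟩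
    refine ⟨h1, fun i k => ?_⟩
    by_cases hk : d i k = ⊤
    · rw [hk]
      exact ENNReal.ofReal_lt_top
    · obtain ⟨h3, h4⟩ := h2 i k hk
      rw [← lt_mob (h1 i) (h1 k)] at h3
      rw [← lt_mob (h1 k) (h1 i)] at h4
      rw [ENNReal.ofReal_lt_iff_lt_toReal (abs_nonneg _) hk, abs_lt]
      exact ⟨by linarith, h4⟩

theorem tanh_pos' {D : ℝ} (hD : 0 ≤ D) : 0 ≤ Real.tanh D := by
  rw [Real.tanh_eq_sinh_div_cosh]
  exact div_nonneg (Real.sinh_nonneg_iff.2 hD) (Real.cosh_pos D).le

theorem mob_conc {τ s t a b : ℝ} (h0 : 0 ≤ τ) (h1 : τ < 1) (hs : |s| < 1) (ht : |t| < 1)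
    (ha : 0 ≤ a) (hb : 0 ≤ b) (hab : a + b = 1) :
    a * mob τ s + b * mob τ t ≤ mob τ (a * s + b * t) := by
  have hτ : |τ| < 1 := by rwa [abs_of_nonneg h0]
  have hu := mden hτ hs
  have hv := mden hτ ht
  obtain ⟨u, hu'⟩ : ∃ u, u = 1 + τ * s := ⟨_, rfl⟩
  obtain ⟨v, hv'⟩ : ∃ v, v = 1 + τ * t := ⟨_, rfl⟩
  have hw : 1 + τ * (a * s + b * t) = a * u + b * v := by
    rw [hu', hv']
    linear_combination (-1 : ℝ) * hab
  unfold mob
  rw [hw, ← hu', ← hv']
  rw [← hu'] at hu
  rw [← hv'] at hv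
  have hw0 : 0 < a * u + b * v := by
    rcases ha.eq_or_lt with h | h
    · rw [← h] at hab
      have : b = 1 := by linarith
      rw [← h, this]
      linarith
    · nlinarith [mul_pos h hu, mul_nonneg hb hv.le]
  rw [le_div_iff₀ hw0]
  have e : a * ((s + τ) / u) + b * ((t + τ) / v) = (a * (s + τ) * v + b * (t + τ) * u) / (u * v) := by
    field_simp
  rw [e, div_mul_eq_mul_div, div_le_iff₀ (mul_pos hu hv)]
  have key : (a * s + b * t + τ) * (u * v) - (a * (s + τ) * v + b * (t + τ) * u) * (a * u + b * v) =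
      a * b * τ * (1 - τ ^ 2) * (s - t) ^ 2 := by
    have hb' : b = 1 - a := by linarith
    rw [hu', hv', hb']
    ring
  have h2 : 0 ≤ 1 - τ ^ 2 := by nlinarith
  have h3 : 0 ≤ a * b * τ * (1 - τ ^ 2) * (s - t) ^ 2 := by positivity
  linarith

theorem lip_open (d : Fin n → Fin n → ℝ≥0∞) (hd : ∀ i k, 0 < d i k) : IsOpen (lip d) := by
  have e : lip d = {x | ∀ i, |x i| < 1} ∩ {x | ∀ i k, d i k ≠ ⊤ →
      x k * (1 + Real.tanh (d i k).toReal * x i) < x i + Real.tanh (d i k).toReal ∧
      x i * (1 + Real.tanh (d i k).toReal * x k) < x k + Real.tanh (d i k).toReal} := by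
    ext x
    rw [lip_iff d hd]
    constructor
    · rintro ⟨h1, h2⟩
      refine ⟨h1, fun i k hk => ?_⟩
      obtain ⟨h3, h4⟩ := h2 i k hk
      unfold mob at h3 h4
      rw [lt_div_iff₀ (mden (tanh_abs _) (h1 i))] at h3
      rw [lt_div_iff₀ (mden (tanh_abs _) (h1 k))] at h4
      exact ⟨h3, h4⟩
    · rintro ⟨h1, h2⟩
      refine ⟨h1, fun i k hk => ?_⟩
      obtain ⟨h3, h4⟩ := h2 i k hk
      unfold mob
      rw [lt_div_iff₀ (mden (tanh_abs _) (h1 i)), lt_div_iff₀ (mden (tanh_abs _) (h1 k))]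
      exact ⟨h3, h4⟩
  rw [e]
  refine IsOpen.inter ?_ ?_
  · simp only [ofPred_forall]
    exact isOpen_iInter_of_finite fun i => isOpen_lt (by fun_prop) continuous_const
  · simp only [ofPred_forall]
    refine isOpen_iInter_of_finite fun i => isOpen_iInter_of_finite fun k => ?_
    by_cases hk : d i k = ⊤
    · simp [hk]
    · have h5 : IsOpen {x : Eu (Fin n) |
          x k * (1 + Real.tanh (d i k).toReal * x i) < x i + Real.tanh (d i k).toReal} :=
        isOpen_lt (by fun_prop) (by fun_prop)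
      have h6 : IsOpen {x : Eu (Fin n) |
          x i * (1 + Real.tanh (d i k).toReal * x k) < x k + Real.tanh (d i k).toReal} :=
        isOpen_lt (by fun_prop) (by fun_prop)
      convert h5.inter h6 using 1
      ext x
      constructor
      · intro h
        have h7 := h
        simp only [hk, ne_eq, not_false_eq_true, mem_iInter] at h7
        exact h7 trivial
      · intro h
        simp only [ne_eq, mem_iInter]
        exact fun _ => h

theorem lip_convex (d : Fin n → Fin n → ℝ≥0∞) (hd : ∀ i k, 0 < d i k) : Convex ℝ (lip d) := by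
  intro x hx y hy a b ha hb hab
  rw [lip_iff d hd] at hx hy ⊢
  have hc : ∀ i, (a • x + b • y) i = a * x i + b * y i := fun i => rfl
  have hcube : ∀ i, |(a • x + b • y) i| < 1 := by
    intro i
    rw [hc]
    have h1 := abs_lt.1 (hx.1 i)
    have h2 := abs_lt.1 (hy.1 i)
    rw [abs_lt]
    constructor
    · rcases ha.eq_or_lt with h | h
      · rw [← h] at hab
        have : b = 1 := by linarith
        rw [← h, this]
        linarith
      · nlinarith
    · rcases ha.eq_or_lt with h | h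
      · rw [← h] at hab
        have : b = 1 := by linarith
        rw [← h, this]
        linarith
      · nlinarith
  refine ⟨hcube, fun i k hk => ?_⟩
  have h0 : 0 ≤ Real.tanh (d i k).toReal := tanh_pos' ENNReal.toReal_nonneg
  have h1 : Real.tanh (d i k).toReal < 1 := (abs_lt.1 (tanh_abs _)).2
  obtain ⟨p1, p2⟩ := hx.2 i k hk
  obtain ⟨q1, q2⟩ := hy.2 i k hk
  have c1 := mob_conc h0 h1 (hx.1 i) (hy.1 i) ha hb hab
  have c2 := mob_conc h0 h1 (hx.1 k) (hy.1 k) ha hb hab
  rw [hc, hc]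
  constructor
  · refine lt_of_lt_of_le ?_ c1
    rcases ha.eq_or_lt with h | h
    · rw [← h] at hab
      have : b = 1 := by linarith
      rw [← h, this]
      linarith
    · nlinarith
  · refine lt_of_lt_of_le ?_ c2
    rcases ha.eq_or_lt with h | h
    · rw [← h] at hab
      have : b = 1 := by linarith
      rw [← h, this]
      linarith
    · nlinarith

theorem lip_HF (d : Fin n → Fin n → ℝ≥0∞) (hd : ∀ i k, 0 < d i k) : HF (lip d) where
  op := lip_open d hd
  cv := lip_convex d hd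
  sub := fun _ hx => hx.1
  mid := by
    intro x y hx hy
    rw [lip_TH] at hx hy ⊢
    intro i k
    rw [md_apply, md_apply]
    have h1 : |(x i + y i) / 2 - (x k + y k) / 2| ≤ max |x i - x k| |y i - y k| := by
      have e : (x i + y i) / 2 - (x k + y k) / 2 = (x i - x k) / 2 + (y i - y k) / 2 := by ring
      rw [e]
      refine (abs_add_le _ _).trans ?_
      rw [abs_div, abs_div, abs_of_pos (by norm_num : (0 : ℝ) < 2)]
      have a1 := le_max_left |x i - x k| |y i - y k|
      have a2 := le_max_right |x i - x k| |y i - y k|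
      linarith
    refine lt_of_le_of_lt (ENNReal.ofReal_le_ofReal h1) ?_
    rcases max_choice |x i - x k| |y i - y k| with h | h
    · rw [h]; exact hx i k
    · rw [h]; exact hy i k
  tr := by
    intro y t hy
    rw [lip_TH] at hy ⊢
    intro i k
    have e : (WithLp.toLp 2 fun i => y i + t : Eu (Fin n)) i -
        (WithLp.toLp 2 fun i => y i + t : Eu (Fin n)) k = y i - y k := by
      show y i + t - (y k + t) = _
      ring
    rw [e]
    exact hy i k

theorem lip_zero (d : Fin n → Fin n → ℝ≥0∞) (hd : ∀ i k, 0 < d i k) : (0 : Eu (Fin n)) ∈ lip d := by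
  refine ⟨fun i => by simp, fun i k => ?_⟩
  simpa using hd i k

theorem artanh_neg' {x : ℝ} (hx : |x| < 1) : Real.artanh (-x) = -Real.artanh x := by
  have h1 : Real.tanh (-Real.artanh x) = -x := by
    rw [Real.tanh_neg, Real.tanh_artanh (abs_lt.1 hx)]
  rw [← h1, Real.artanh_tanh]

theorem lip_symm (d : Fin n → Fin n → ℝ≥0∞) : ∀ x ∈ lip d, -x ∈ lip d := by
  rintro x ⟨h1, h2⟩
  refine ⟨fun i => ?_, fun i k => ?_⟩
  · show |-(x i)| < 1
    rw [abs_neg]
    exact h1 i
  · show ENNReal.ofReal |Real.artanh (-(x i)) - Real.artanh (-(x k))| < d i k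
    rw [artanh_neg' (h1 i), artanh_neg' (h1 k)]
    have e : -Real.artanh (x i) - -Real.artanh (x k) = -(Real.artanh (x i) - Real.artanh (x k)) := by
      ring
    rw [e, abs_neg]
    exact h2 i k

end Pool.Agent.U959.LB
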