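import Pool.Agent.U959.LB.Poi

/-!
# Lipschitz bodies in the Hilbert metric: `Var f ≤ (1/2) E ∑ (1 - x_i²) (∂_i f)²`
-/

set_option autoImplicit false

namespace Pool.Agent.U959.LB

open MeasureTheory Set Filter Topology
open scoped ENNReal
open Pool.Agent.W695.KH (Eu EV VV)

variable {n : ℕ}

theorem wi_int {Ω : Set (Eu (Fin n))} (h : HC Ω) (φ : Eu (Fin n) → ℝ) :
    ∫ x, φ x * wi Ω x = ∫ x in Ω, φ x := by
  rw [← integral_indicator h.op.measurableSet]
  congr 1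
  funext x
  unfold wi
  by_cases hx : x ∈ Ω
  · rw [indicator_of_mem hx, indicator_of_mem hx, mul_one]
  · rw [indicator_of_notMem hx, indicator_of_notMem hx, mul_zero]

theorem wi_vol {Ω : Set (Eu (Fin n))} (h : HC Ω) : ∫ x, wi Ω x = (volume Ω).toReal := by
  have h1 := wi_int h fun _ => 1
  simp only [one_mul] at h1
  rw [h1, setIntegral_const, smul_eq_mul, mul_one]
  rfl

theorem HC.vol_pos {Ω : Set (Eu (Fin n))} (h : HC Ω) (hne : Ω.Nonempty) :
    0 < (volume Ω).toReal :=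
  ENNReal.toReal_pos (h.op.measure_pos volume hne).ne' h.bdd.measure_lt_top.ne

/-- the weighted energy -/
noncomputable def en (f : Eu (Fin n) → ℝ) (z : Eu (Fin n)) : ℝ :=
  ∑ i, (1 - z i ^ 2) * pd f i z ^ 2

theorem poin0 {Ω : Set (Eu (Fin n))} (h : HC Ω) (hne : Ω.Nonempty) (f : Eu (Fin n) → ℝ)
    (hf : ContDiff ℝ 1 f) (h0 : ∫ x, f x * wi Ω x = 0) :
    2 * ∫ x, (f x) ^ 2 * wi Ω x ≤ ∫ x, en f x * wi Ω x := by
  have hW : 0 < ∫ x, wi Ω x := by
    rw [wi_vol h]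
    exact h.vol_pos hne
  have hp : ∀ i, Continuous (pd f i) := fun i => pd_cont hf i
  have hx : ∀ i, Continuous fun z : Eu (Fin n) => |1 - z i ^ 2| := fun i => by fun_prop
  obtain ⟨D0, hD0⟩ : ∃ D0, D0 = ∫ x, (∑ i, |1 - x i ^ 2| * |pd f i x| ^ 2) * wi Ω x := ⟨_, rfl⟩
  obtain ⟨D1, hD1⟩ : ∃ D1, D1 = ∫ x, (∑ i, |1 - x i ^ 2| * |pd f i x|) * wi Ω x := ⟨_, rfl⟩
  obtain ⟨D2, hD2⟩ : ∃ D2, D2 = ∫ x : Eu (Fin n), (∑ i, |1 - x i ^ 2|) * wi Ω x := ⟨_, rfl⟩
  have i0 : Integrable fun x => (∑ i, |1 - x i ^ 2| * |pd f i x| ^ 2) * wi Ω x :=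
    h.intg (continuous_finsetSum _ fun i _ => (hx i).mul ((hp i).abs.pow 2))
  have i1 : Integrable fun x => (∑ i, |1 - x i ^ 2| * |pd f i x|) * wi Ω x :=
    h.intg (continuous_finsetSum _ fun i _ => (hx i).mul (hp i).abs)
  have i2 : Integrable fun x : Eu (Fin n) => (∑ i, |1 - x i ^ 2|) * wi Ω x :=
    h.intg (continuous_finsetSum _ fun i _ => hx i)
  have key : ∀ η : ℝ, 0 < η → η ≤ 1 →
      2 * ∫ x, (f x) ^ 2 * wi Ω x ≤ (1 + η) * (D0 + 2 * η * D1 + η ^ 2 * D2) := by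
    intro η hη hη1
    refine (main h f hf hW h0 η hη hη1).trans (le_of_eq ?_)
    have e : ∀ x, Gf η f x * wi Ω x = (1 + η) * ((∑ i, |1 - x i ^ 2| * |pd f i x| ^ 2) * wi Ω x +
        2 * η * ((∑ i, |1 - x i ^ 2| * |pd f i x|) * wi Ω x) +
        η ^ 2 * ((∑ i, |1 - x i ^ 2|) * wi Ω x)) := by
      intro x
      unfold Gf
      have e1 : ∑ i, |1 - x i ^ 2| * (|pd f i x| + η) ^ 2 =
          ∑ i, |1 - x i ^ 2| * |pd f i x| ^ 2 + 2 * η * ∑ i, |1 - x i ^ 2| * |pd f i x| +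
          η ^ 2 * ∑ i, |1 - x i ^ 2| := by
        rw [Finset.mul_sum, Finset.mul_sum, ← Finset.sum_add_distrib, ← Finset.sum_add_distrib]
        refine Finset.sum_congr rfl fun i _ => by ring
      rw [e1]
      ring
    simp_rw [e]
    rw [integral_const_mul, integral_add, integral_add, integral_const_mul, integral_const_mul,
      ← hD0, ← hD1, ← hD2]
    · exact i0
    · exact i1.const_mul _
    · exact i0.add (i1.const_mul _)
    · exact i2.const_mul _
  have hlim : 2 * ∫ x, (f x) ^ 2 * wi Ω x ≤ D0 := by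
    have t : Tendsto (fun η : ℝ => (1 + η) * (D0 + 2 * η * D1 + η ^ 2 * D2)) (𝓝[>] 0) (𝓝 D0) := by
      have h1 : Continuous fun η : ℝ => (1 + η) * (D0 + 2 * η * D1 + η ^ 2 * D2) := by fun_prop
      have h2 := (h1.tendsto 0).mono_left (nhdsWithin_le_nhds (s := Ioi (0 : ℝ)))
      simpa using h2
    refine ge_of_tendsto t ?_
    filter_upwards [Ioc_mem_nhdsGT one_pos] with η hη
    exact key η hη.1 hη.2
  refine hlim.trans (le_of_eq ?_)
  rw [hD0, wi_int h, wi_int h]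
  refine setIntegral_congr_fun h.op.measurableSet fun x hx => ?_
  show ∑ i, |1 - x i ^ 2| * |pd f i x| ^ 2 = en f x
  unfold en
  refine Finset.sum_congr rfl fun i _ => ?_
  have h1 : 0 ≤ 1 - x i ^ 2 := by
    have := h.sub hx i
    have h3 : x i ^ 2 ≤ 1 := by
      rw [← sq_abs]
      exact pow_le_one₀ (abs_nonneg _) this.le
    linarith
  rw [abs_of_nonneg h1, sq_abs]

theorem en_cont {f : Eu (Fin n) → ℝ} (hf : ContDiff ℝ 1 f) : Continuous (en f) := by
  unfold en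
  refine continuous_finsetSum _ fun i _ => ?_
  have h2 : Continuous fun z : Eu (Fin n) => 1 - z i ^ 2 := by fun_prop
  exact h2.mul ((pd_cont hf i).pow 2)

/-- **the weighted Poincare inequality** -/
theorem poin {Ω : Set (Eu (Fin n))} (h : HC Ω) (hne : Ω.Nonempty) (f : Eu (Fin n) → ℝ)
    (hf : ContDiff ℝ 1 f) : VV Ω f ≤ 1 / 2 * EV Ω (en f) := by
  have hV := h.vol_pos hne
  obtain ⟨V, hVd⟩ : ∃ V, V = (volume Ω).toReal := ⟨_, rfl⟩
  obtain ⟨c, hc⟩ : ∃ c, c = EV Ω f := ⟨_, rfl⟩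
  have hc' : ∫ x, f x * wi Ω x = c * V := by
    rw [wi_int h, hc, hVd]
    unfold EV
    field_simp
  have hpd : ∀ i z, pd (fun x => f x - c) i z = pd f i z := by
    intro i z
    unfold pd
    rw [fderiv_sub_const]
  have hi : Integrable fun x => f x * wi Ω x := h.intg hf.continuous
  have hi2 : Integrable fun x => f x ^ 2 * wi Ω x := h.intg (hf.continuous.pow 2)
  have hiw : Integrable (wi Ω) := by
    have := h.intg (φ := fun _ => (1 : ℝ)) continuous_const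
    simpa using this
  have h1 := poin0 h hne (fun x => f x - c) (hf.sub contDiff_const) (by
    have e : ∀ x, (f x - c) * wi Ω x = f x * wi Ω x - c * wi Ω x := fun x => by ring
    simp_rw [e]
    rw [integral_sub hi (hiw.const_mul c), integral_const_mul, hc', wi_vol h, ← hVd]
    ring)
  have e2 : en (fun x => f x - c) = en f := by
    funext z
    unfold en
    simp only [hpd]
  rw [e2] at h1
  have e3 : ∫ x, (f x - c) ^ 2 * wi Ω x = (∫ x, f x ^ 2 * wi Ω x) - c ^ 2 * V := by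
    have e : ∀ x, (f x - c) ^ 2 * wi Ω x =
        f x ^ 2 * wi Ω x - 2 * c * (f x * wi Ω x) + c ^ 2 * wi Ω x := fun x => by ring
    simp_rw [e]
    have i12 : Integrable fun x => f x ^ 2 * wi Ω x - 2 * c * (f x * wi Ω x) :=
      hi2.sub (hi.const_mul _)
    rw [integral_add i12 (hiw.const_mul _),
      integral_sub hi2 (hi.const_mul _), integral_const_mul, integral_const_mul, hc', wi_vol h,
      ← hVd]
    ring
  rw [e3, wi_int h, wi_int h] at h1
  unfold VV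
  rw [← hc]
  unfold EV
  rw [← hVd]
  rw [← hVd] at hV
  have h2 : (∫ x in Ω, f x ^ 2) / V - c ^ 2 = ((∫ x in Ω, f x ^ 2) - c ^ 2 * V) / V := by
    field_simp
  rw [h2]
  have h3 : 1 / 2 * ((∫ x in Ω, en f x) / V) = (∫ x in Ω, en f x) / 2 / V := by ring
  rw [h3]
  exact div_le_div_of_nonneg_right (by linarith) hV.le

theorem sum_pd (f : Eu (Fin n) → ℝ) (z : Eu (Fin n)) : ∑ i, pd f i z ^ 2 ≤ ‖fderiv ℝ f z‖ ^ 2 := by
  let v : Eu (Fin n) := WithLp.toLp 2 fun i => pd f i z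
  have hv : ‖v‖ ^ 2 = ∑ i, pd f i z ^ 2 := by
    rw [EuclideanSpace.real_norm_sq_eq]
  have h1 : fderiv ℝ f z v = ∑ i, pd f i z ^ 2 := by
    rw [fd_eq]
    refine Finset.sum_congr rfl fun i _ => ?_
    show pd f i z * pd f i z = _
    ring
  have h2 := (le_abs_self _).trans ((fderiv ℝ f z).le_opNorm v)
  rw [h1, ← hv] at h2
  rw [← hv]
  rcases (norm_nonneg v).eq_or_lt with h3 | h3
  · rw [← h3, zero_pow two_ne_zero]
    exact sq_nonneg _
  · have h4 : ‖v‖ ≤ ‖fderiv ℝ f z‖ := by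
      rw [pow_two] at h2
      exact le_of_mul_le_mul_right h2 h3
    gcongr

theorem EV_mono {Ω : Set (Eu (Fin n))} (h : HC Ω) {f g : Eu (Fin n) → ℝ} (hf : Continuous f)
    (hg : Continuous g) (hfg : ∀ x ∈ Ω, f x ≤ g x) : EV Ω f ≤ EV Ω g := by
  unfold EV
  refine div_le_div_of_nonneg_right ?_ ENNReal.toReal_nonneg
  have hi : ∀ {φ : Eu (Fin n) → ℝ}, Continuous φ → IntegrableOn φ Ω := by
    intro φ hφ
    exact (hφ.continuousOn.integrableOn_compact (isCompact_closedBall (0 : Eu (Fin n)) n)).mono_set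
      (h.sub.trans cube_sub_ball)
  exact setIntegral_mono_on (hi hf) (hi hg) h.op.measurableSet hfg

theorem poin_grad {Ω : Set (Eu (Fin n))} (h : HC Ω) (hne : Ω.Nonempty) (f : Eu (Fin n) → ℝ)
    (hf : ContDiff ℝ 1 f) : VV Ω f ≤ 1 / 2 * EV Ω fun x => ‖fderiv ℝ f x‖ ^ 2 := by
  refine (poin h hne f hf).trans (mul_le_mul_of_nonneg_left ?_ (by norm_num))
  refine EV_mono h (en_cont hf) ((hf.continuous_fderiv one_ne_zero).norm.pow 2) fun x hx => ?_
  refine le_trans ?_ (sum_pd f x)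
  unfold en
  refine Finset.sum_le_sum fun i _ => ?_
  have := sq_nonneg (x i)
  nlinarith [sq_nonneg (pd f i x)]

end Pool.Agent.U959.LB
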