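import Pool.Agent.U959.LB.Flow
import Pool.Agent.U959.LB.Poi2

/-!
# Lipschitz bodies in the Hilbert metric: the variance of the sum of the coordinates
-/

set_option autoImplicit false

namespace Pool.Agent.U959.LB

open MeasureTheory Set Filter Topology
open scoped ENNReal
open Pool.Agent.W695.KH (Eu EV VV)

variable {n : ℕ}

theorem mob'_der (z : ℝ) : HasDerivAt (fun τ : ℝ => mob' τ z) (-(2 * z)) 0 := by
  unfold mob'
  have h1 : HasDerivAt (fun τ : ℝ => 1 - τ ^ 2) 0 0 := by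
    have := ((hasDerivAt_id (0 : ℝ)).pow 2).const_sub 1
    simpa using this
  have h2 : HasDerivAt (fun τ : ℝ => (1 + τ * z) ^ 2) (2 * z) 0 := by
    have := (((hasDerivAt_id (0 : ℝ)).mul_const z).const_add 1).fun_pow 2
    simpa using this
  have h3 := h1.div h2 (by simp)
  have e : (0 * (1 + 0 * z) ^ 2 - (1 - (0 : ℝ) ^ 2) * (2 * z)) / ((1 + 0 * z) ^ 2) ^ 2 =
      -(2 * z) := by
    norm_num
  rw [e] at h3
  exact h3

theorem mob_der0 (z : ℝ) : HasDerivAt (fun τ : ℝ => mob τ z) (1 - z ^ 2) 0 := by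
  unfold mob
  have h1 : HasDerivAt (fun τ : ℝ => z + τ) 1 0 := (hasDerivAt_id (0 : ℝ)).const_add z
  have h2 : HasDerivAt (fun τ : ℝ => 1 + τ * z) z 0 := by
    have := ((hasDerivAt_id (0 : ℝ)).mul_const z).const_add 1
    simpa using this
  have h3 := h1.div h2 (by simp)
  have e : (1 * (1 + 0 * z) - (z + 0) * z) / (1 + 0 * z) ^ 2 = 1 - z ^ 2 := by
    norm_num
    ring
  rw [e] at h3
  exact h3

theorem mob'_zero (z : ℝ) : mob' 0 z = 1 := by
  unfold mob'
  norm_num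

theorem mob_zero (z : ℝ) : mob 0 z = z := by
  unfold mob
  norm_num

theorem mob_abs {τ z : ℝ} (hτ : |τ| < 1) (hz : |z| < 1) : |mob τ z| < 1 := by
  have h1 := mob_tanh hτ (Real.artanh z)
  rw [Real.tanh_artanh (abs_lt.1 hz)] at h1
  rw [h1]
  exact tanh_abs _

/-- the integrand of the flow identity -/
noncomputable def Jf (z : Eu (Fin n)) (τ : ℝ) : ℝ := (∏ i, mob' τ (z i)) * ∑ i, mob τ (z i)

theorem Jf_zero (z : Eu (Fin n)) : Jf z 0 = ∑ i, z i := by
  unfold Jf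
  simp [mob'_zero, mob_zero]

theorem Jf_der (z : Eu (Fin n)) : HasDerivAt (Jf z)
    (∑ i, (1 - z i ^ 2) - 2 * (∑ i, z i) ^ 2) 0 := by
  have h1 : HasDerivAt (fun τ : ℝ => ∏ i, mob' τ (z i)) (∑ i, -(2 * z i)) 0 := by
    have := HasDerivAt.fun_finsetProd (u := Finset.univ) (f := fun i (τ : ℝ) => mob' τ (z i))
      (f' := fun i => -(2 * z i)) (x := 0) (fun i _ => mob'_der (z i))
    simpa [mob'_zero] using this
  have h2 : HasDerivAt (fun τ : ℝ => ∑ i, mob τ (z i)) (∑ i, (1 - z i ^ 2)) 0 :=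
    HasDerivAt.fun_sum fun i _ => mob_der0 (z i)
  have h3 := h1.mul h2
  have e : (∑ i, -(2 * z i)) * (∑ i, mob 0 (z i)) + (∏ i, mob' 0 (z i)) * ∑ i, (1 - z i ^ 2) =
      ∑ i, (1 - z i ^ 2) - 2 * (∑ i, z i) ^ 2 := by
    simp only [mob'_zero, mob_zero, Finset.prod_const_one, one_mul, Finset.sum_neg_distrib,
      ← Finset.mul_sum]
    ring
  rw [e] at h3
  exact h3

theorem mob'_bd {τ z : ℝ} (hτ : |τ| ≤ 1 / 2) (hz : |z| < 1) : |mob' τ z - 1| ≤ 12 * |τ| := by
  have h1 : |τ * z| ≤ 1 / 2 := by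
    rw [abs_mul]
    nlinarith [abs_nonneg τ, abs_nonneg z]
  have h2 : 1 / 2 ≤ 1 + τ * z := by linarith [(abs_le.1 h1).1]
  have h3 : 1 / 4 ≤ (1 + τ * z) ^ 2 := by nlinarith
  have e : mob' τ z - 1 = -(τ * (τ + 2 * z + τ * z ^ 2)) / (1 + τ * z) ^ 2 := by
    unfold mob'
    rw [div_sub_one (by linarith : (1 + τ * z) ^ 2 ≠ 0)]
    congr 1
    ring
  have h4 : |τ + 2 * z + τ * z ^ 2| ≤ 3 := by
    have a1 := abs_lt.1 hz
    have a2 := abs_le.1 hτ
    have a3 : z ^ 2 ≤ 1 := by nlinarith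
    have a4 : 0 ≤ z ^ 2 := sq_nonneg z
    rw [abs_le]
    constructor <;> nlinarith
  rw [e, abs_div, abs_neg, abs_mul, abs_of_pos (by linarith : 0 < (1 + τ * z) ^ 2),
    div_le_iff₀ (by linarith)]
  have h5 : |τ| * |τ + 2 * z + τ * z ^ 2| ≤ |τ| * 3 := by gcongr
  have h6 : |τ| * (1 / 4) ≤ |τ| * (1 + τ * z) ^ 2 := by gcongr
  nlinarith [abs_nonneg τ]

theorem mob_bd {τ z : ℝ} (hτ : |τ| ≤ 1 / 2) (hz : |z| < 1) : |mob τ z - z| ≤ 2 * |τ| := by
  have h1 : |τ * z| ≤ 1 / 2 := by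
    rw [abs_mul]
    nlinarith [abs_nonneg τ, abs_nonneg z]
  have h2 : 1 / 2 ≤ 1 + τ * z := by linarith [(abs_le.1 h1).1]
  have e : mob τ z - z = τ * (1 - z ^ 2) / (1 + τ * z) := by
    unfold mob
    rw [div_sub' (by linarith : (1 + τ * z) ≠ 0)]
    congr 1
    ring
  have h4 : |1 - z ^ 2| ≤ 1 := by
    have a1 := abs_lt.1 hz
    rw [abs_le]
    constructor <;> nlinarith
  rw [e, abs_div, abs_mul, abs_of_pos (by linarith : 0 < 1 + τ * z), div_le_iff₀ (by linarith)]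
  have h5 : |τ| * |1 - z ^ 2| ≤ |τ| * 1 := by gcongr
  have h6 : |τ| * (1 / 2) ≤ |τ| * (1 + τ * z) := by gcongr
  linarith

theorem prod_bd {τ : ℝ} (hτ : |τ| ≤ 1 / 2) {z : Eu (Fin n)} (hz : z ∈ cube n) :
    |∏ i, mob' τ (z i) - 1| ≤ 12 * n * Real.exp (12 * n) * |τ| := by
  have h1 := Finset.norm_prod_one_add_sub_one_le (Finset.univ : Finset (Fin n))
    (fun i => mob' τ (z i) - 1)
  simp only [add_sub_cancel] at h1
  have h2 : ∑ i, ‖mob' τ (z i) - 1‖ ≤ 12 * n * |τ| := by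
    have h3 : ∑ i, ‖mob' τ (z i) - 1‖ ≤ ∑ _i : Fin n, 12 * |τ| :=
      Finset.sum_le_sum fun i _ => mob'_bd hτ (hz i)
    rw [Finset.sum_const, Finset.card_univ, Fintype.card_fin, nsmul_eq_mul] at h3
    linarith
  obtain ⟨s, hs⟩ : ∃ s, s = 12 * (n : ℝ) * |τ| := ⟨_, rfl⟩
  rw [← hs] at h2
  have h3 : Real.exp (∑ i, ‖mob' τ (z i) - 1‖) - 1 ≤ Real.exp s - 1 := by
    have := Real.exp_le_exp.2 h2
    linarith
  have h4 : Real.exp s - 1 ≤ s * Real.exp s := by
    have h5 := Real.add_one_le_exp (-s)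
    have h6 := Real.exp_pos s
    have h7 : Real.exp s * Real.exp (-s) = 1 := by rw [← Real.exp_add, add_neg_cancel, Real.exp_zero]
    nlinarith
  have h5 : s ≤ 12 * n := by
    rw [hs]
    have : |τ| ≤ 1 := by linarith
    have h6 : (0 : ℝ) ≤ 12 * n := by positivity
    nlinarith
  have h6 : 0 ≤ s := by rw [hs]; positivity
  have h7 : s * Real.exp s ≤ s * Real.exp (12 * n) := by gcongr
  calc |∏ i, mob' τ (z i) - 1| ≤ Real.exp (∑ i, ‖mob' τ (z i) - 1‖) - 1 := h1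
    _ ≤ s * Real.exp (12 * n) := by linarith
    _ = 12 * n * Real.exp (12 * n) * |τ| := by rw [hs]; ring

theorem Jf_bd : ∃ C : ℝ, 0 ≤ C ∧ ∀ (τ : ℝ), |τ| ≤ 1 / 2 → ∀ z ∈ cube n,
    |Jf z τ - Jf z 0| ≤ C * |τ| := by
  refine ⟨12 * n * Real.exp (12 * n) * n + 2 * n, by positivity, fun τ hτ z hz => ?_⟩
  have h1 := prod_bd hτ hz
  have h2 : |∑ i, mob τ (z i) - ∑ i, z i| ≤ 2 * n * |τ| := by
    rw [← Finset.sum_sub_distrib]
    refine (Finset.abs_sum_le_sum_abs _ _).trans ?_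
    have h3 : ∑ i, |mob τ (z i) - z i| ≤ ∑ _i : Fin n, 2 * |τ| :=
      Finset.sum_le_sum fun i _ => mob_bd hτ (hz i)
    rw [Finset.sum_const, Finset.card_univ, Fintype.card_fin, nsmul_eq_mul] at h3
    linarith
  have h3 : |∑ i, mob τ (z i)| ≤ n := by
    refine (Finset.abs_sum_le_sum_abs _ _).trans ?_
    have h3 : ∑ i, |mob τ (z i)| ≤ ∑ _i : Fin n, (1 : ℝ) :=
      Finset.sum_le_sum fun i _ => (mob_abs (by linarith) (hz i)).le
    rw [Finset.sum_const, Finset.card_univ, Fintype.card_fin, nsmul_eq_mul, mul_one] at h3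
    exact h3
  rw [Jf_zero]
  unfold Jf
  have e : (∏ i, mob' τ (z i)) * ∑ i, mob τ (z i) - ∑ i, z i =
      (∏ i, mob' τ (z i) - 1) * (∑ i, mob τ (z i)) + (∑ i, mob τ (z i) - ∑ i, z i) := by ring
  rw [e]
  refine (abs_add_le _ _).trans ?_
  rw [abs_mul]
  have h4 : |∏ i, mob' τ (z i) - 1| * |∑ i, mob τ (z i)| ≤
      12 * n * Real.exp (12 * n) * |τ| * n :=
    mul_le_mul h1 h3 (abs_nonneg _) (by positivity)
  nlinarith

/-- the class of sets which are also invariant under the flow -/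
structure HF (Ω : Set (Eu (Fin n))) : Prop extends HC Ω where
  tr : ∀ (y : Eu (Fin n)) (t : ℝ), TH y ∈ Ω → TH (WithLp.toLp 2 fun i => y i + t) ∈ Ω

theorem Jf_cont {τ : ℝ} (hτ : |τ| ≤ 1 / 2) : ContinuousOn (fun z : Eu (Fin n) => Jf z τ) (cube n) := by
  unfold Jf mob mob'
  have h1 : ∀ i : Fin n, ∀ z ∈ cube n, 1 + τ * z i ≠ 0 := fun i z hz =>
    (mden (by linarith) (hz i)).ne'
  refine ContinuousOn.mul (continuousOn_finsetProd _ fun i _ => ?_)
    (continuousOn_finsetSum _ fun i _ => ?_)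
  · refine ContinuousOn.div (by fun_prop) (by fun_prop) fun z hz => pow_ne_zero _ (h1 i z hz)
  · refine ContinuousOn.div (by fun_prop) (by fun_prop) fun z hz => h1 i z hz

theorem flow_id {Ω : Set (Eu (Fin n))} (h : HF Ω) :
    ∫ z in Ω, (∑ i, (1 - z i ^ 2) - 2 * (∑ i, z i) ^ 2) = 0 := by
  obtain ⟨C, hC, hb⟩ := Jf_bd (n := n)
  have hfin : volume Ω < ⊤ := h.bdd.measure_lt_top
  have hzero : ∀ τ : ℝ, |τ| ≤ 1 / 2 → ∫ z in Ω, (Jf z τ - Jf z 0) = 0 := by
    intro τ hτ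
    have h1 := flow_eu h.op h.sub h.tr (by linarith : |τ| < 1) fun z => ∑ i, z i
    have hm : ∀ σ : ℝ, |σ| ≤ 1 / 2 → AEStronglyMeasurable (fun z : Eu (Fin n) => Jf z σ)
        (volume.restrict Ω) := fun σ hσ =>
      ((Jf_cont hσ).mono h.sub).aestronglyMeasurable h.op.measurableSet
    have i0 : IntegrableOn (fun z : Eu (Fin n) => Jf z 0) Ω := by
      have e : (fun z : Eu (Fin n) => Jf z 0) = fun z => ∑ i, z i := by
        funext z
        exact Jf_zero z
      rw [e]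
      exact (Continuous.continuousOn (by fun_prop)).integrableOn_compact
        (isCompact_closedBall (0 : Eu (Fin n)) n) |>.mono_set (h.sub.trans cube_sub_ball)
    have i1 : IntegrableOn (fun z : Eu (Fin n) => Jf z τ - Jf z 0) Ω := by
      have : IsFiniteMeasure (volume.restrict Ω) := ⟨by rwa [Measure.restrict_apply_univ]⟩
      refine Integrable.of_bound ((hm τ hτ).sub (hm 0 (by norm_num))) (C * |τ|) ?_
      refine (ae_restrict_iff' h.op.measurableSet).2 (Eventually.of_forall fun z hz => ?_)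
      rw [Real.norm_eq_abs]
      exact hb τ hτ z (h.sub hz)
    have i2 : IntegrableOn (fun z : Eu (Fin n) => Jf z τ) Ω := by
      have := i1.add i0
      refine this.congr ?_
      refine Eventually.of_forall fun z => ?_
      show Jf z τ - Jf z 0 + Jf z 0 = Jf z τ
      ring
    rw [integral_sub i2 i0]
    have e : ∫ z in Ω, Jf z 0 = ∫ z in Ω, ∑ i, z i := by
      congr 1
      funext z
      exact Jf_zero z
    rw [e, h1]
    exact sub_self _
  -- dominated convergence for the difference quotients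
  have hlim : Tendsto (fun k : ℕ => ∫ z in Ω, ((k : ℝ) + 2) * (Jf z (1 / ((k : ℝ) + 2)) - Jf z 0))
      atTop (𝓝 (∫ z in Ω, (∑ i, (1 - z i ^ 2) - 2 * (∑ i, z i) ^ 2))) := by
    have hk : ∀ k : ℕ, |1 / ((k : ℝ) + 2)| ≤ 1 / 2 := by
      intro k
      rw [abs_of_pos (by positivity)]
      exact one_div_le_one_div_of_le two_pos (by linarith [(Nat.cast_nonneg k : (0 : ℝ) ≤ k)])
    refine tendsto_integral_of_dominated_convergence (fun _ => C) ?_ ?_ ?_ ?_
    · intro k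
      refine AEStronglyMeasurable.const_mul ?_ _
      exact (((Jf_cont (hk k)).mono h.sub).aestronglyMeasurable h.op.measurableSet).sub
        (((Jf_cont (by norm_num)).mono h.sub).aestronglyMeasurable h.op.measurableSet)
    · exact integrableOn_const hfin.ne
    · intro k
      refine (ae_restrict_iff' h.op.measurableSet).2 (Eventually.of_forall fun z hz => ?_)
      have h1 := hb _ (hk k) z (h.sub hz)
      have hk0 : (0 : ℝ) < (k : ℝ) + 2 := by positivity
      rw [Real.norm_eq_abs, abs_mul, abs_of_pos hk0]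
      rw [abs_of_pos (by positivity : (0 : ℝ) < 1 / ((k : ℝ) + 2))] at h1
      calc ((k : ℝ) + 2) * |Jf z (1 / ((k : ℝ) + 2)) - Jf z 0|
          ≤ ((k : ℝ) + 2) * (C * (1 / ((k : ℝ) + 2))) := by gcongr
        _ = C := by field_simp
    · refine Eventually.of_forall fun z => ?_
      have h1 := (hasDerivAt_iff_tendsto_slope_zero.1 (Jf_der z))
      have h2 : Tendsto (fun k : ℕ => 1 / ((k : ℝ) + 2)) atTop (𝓝[≠] 0) := by
        refine tendsto_nhdsWithin_iff.2 ⟨?_, Eventually.of_forall fun k => ?_⟩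
        · have h3 : Tendsto (fun k : ℕ => (k : ℝ) + 2) atTop atTop :=
            tendsto_natCast_atTop_atTop.atTop_add tendsto_const_nhds
          refine h3.inv_tendsto_atTop.congr fun k => ?_
          simp [one_div]
        · have : (0 : ℝ) < 1 / ((k : ℝ) + 2) := by positivity
          exact this.ne'
      have h3 := h1.comp h2
      refine h3.congr fun k => ?_
      show (1 / ((k : ℝ) + 2))⁻¹ • (Jf z (0 + 1 / ((k : ℝ) + 2)) - Jf z 0) = _
      rw [zero_add, smul_eq_mul, one_div, inv_inv]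
  have hz : ∀ k : ℕ, ∫ z in Ω, ((k : ℝ) + 2) * (Jf z (1 / ((k : ℝ) + 2)) - Jf z 0) = 0 := by
    intro k
    rw [integral_const_mul, hzero _ (by
      rw [abs_of_pos (by positivity)]
      exact one_div_le_one_div_of_le two_pos (by linarith [(Nat.cast_nonneg k : (0 : ℝ) ≤ k)])),
      mul_zero]
  have h1 : Tendsto (fun _ : ℕ => (0 : ℝ)) atTop
      (𝓝 (∫ z in Ω, (∑ i, (1 - z i ^ 2) - 2 * (∑ i, z i) ^ 2))) := by
    refine hlim.congr fun k => hz k
  exact tendsto_nhds_unique h1 tendsto_const_nhds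

end Pool.Agent.U959.LB
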