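import Pool.Agent.U959.LB.Cov
import Pool.Agent.H212R2.KLS.R4

/-!
# Lipschitz bodies in the Hilbert metric: the Prekopa-Leindler inequality along `artanh`
-/

set_option autoImplicit false

namespace Pool.Agent.U959.LB

open MeasureTheory Set Filter Topology
open scoped ENNReal
open Pool.Agent.W695.KH (Eu)

variable {n : ℕ}

/-- midpoint in the coordinates `artanh` -/
noncomputable def md (x y : Eu (Fin n)) : Eu (Fin n) := (1 / 2 : ℝ) • (x + y)

theorem md_apply (x y : Eu (Fin n)) (i : Fin n) : md x y i = (x i + y i) / 2 := by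
  unfold md
  simp
  ring

/-- the class of sets -/
structure HC (Ω : Set (Eu (Fin n))) : Prop where
  op : IsOpen Ω
  cv : Convex ℝ Ω
  sub : Ω ⊆ cube n
  mid : ∀ x y, TH x ∈ Ω → TH y ∈ Ω → TH (md x y) ∈ Ω

/-- the product of the defects -/
noncomputable def QQ (x y : Eu (Fin n)) : ℝ := ∏ i, (1 - qq (x i) (y i))

theorem QQ_nonneg (x y : Eu (Fin n)) : 0 ≤ QQ x y :=
  Finset.prod_nonneg fun i _ => by linarith [qq_lt (x i) (y i)]

theorem QQ_le (x y : Eu (Fin n)) : QQ x y ^ 2 ≤ Real.exp (-(2 * ∑ i, qq (x i) (y i))) := by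
  have h1 : QQ x y ≤ Real.exp (-∑ i, qq (x i) (y i)) := by
    unfold QQ
    rw [← Finset.sum_neg_distrib, Real.exp_sum]
    refine Finset.prod_le_prod (fun i _ => by linarith [qq_lt (x i) (y i)]) fun i _ => ?_
    have := Real.add_one_le_exp (-qq (x i) (y i))
    linarith
  calc QQ x y ^ 2 ≤ (Real.exp (-∑ i, qq (x i) (y i))) ^ 2 :=
        pow_le_pow_left₀ (QQ_nonneg x y) h1 2
    _ = Real.exp (-(2 * ∑ i, qq (x i) (y i))) := by
        rw [← Real.exp_nat_mul]
        congr 1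
        push_cast
        ring

theorem ww_mid (x y : Eu (Fin n)) : ww x * ww y = ww (md x y) ^ 2 * QQ x y ^ 2 := by
  unfold ww QQ
  rw [← Finset.prod_mul_distrib, ← Finset.prod_pow, ← Finset.prod_pow, ← Finset.prod_mul_distrib]
  refine Finset.prod_congr rfl fun i _ => ?_
  rw [md_apply]
  exact mid_eq (x i) (y i)

theorem cube_sub_ball : cube n ⊆ Metric.closedBall 0 (n : ℝ) := by
  intro z hz
  rw [mem_closedBall_zero_iff]
  have h1 : ‖z‖ ^ 2 ≤ (n : ℝ) ^ 2 := by
    rw [EuclideanSpace.real_norm_sq_eq]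
    have h2 : ∑ i, z i ^ 2 ≤ ∑ _i : Fin n, (1 : ℝ) := by
      refine Finset.sum_le_sum fun i _ => ?_
      have := hz i
      rw [← sq_abs]
      exact pow_le_one₀ (abs_nonneg _) this.le
    rw [Finset.sum_const, Finset.card_univ, Fintype.card_fin, nsmul_eq_mul, mul_one] at h2
    rcases Nat.eq_zero_or_pos n with h | h
    · subst h
      simp
    · have h3 : (1 : ℝ) ≤ n := by exact_mod_cast h
      nlinarith
  exact le_of_sq_le_sq h1 (by positivity)

theorem HC.bdd {Ω : Set (Eu (Fin n))} (h : HC Ω) : Bornology.IsBounded Ω :=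
  Metric.isBounded_closedBall.subset (h.sub.trans cube_sub_ball)

/-- the indicator -/
noncomputable def wi (Ω : Set (Eu (Fin n))) : Eu (Fin n) → ℝ := Ω.indicator fun _ => 1

theorem wi_nonneg (Ω : Set (Eu (Fin n))) (x : Eu (Fin n)) : 0 ≤ wi Ω x :=
  indicator_nonneg (fun _ _ => zero_le_one) x

theorem wi_le (Ω : Set (Eu (Fin n))) (x : Eu (Fin n)) : wi Ω x ≤ 1 := by
  unfold wi
  by_cases hx : x ∈ Ω
  · rw [indicator_of_mem hx]
  · rw [indicator_of_notMem hx]
    exact zero_le_one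

theorem HC.wi_meas {Ω : Set (Eu (Fin n))} (h : HC Ω) : Measurable (wi Ω) :=
  measurable_const.indicator h.op.measurableSet

theorem HC.wi_supp {Ω : Set (Eu (Fin n))} (h : HC Ω) (x : Eu (Fin n)) (hx : (n : ℝ) < ‖x‖) :
    wi Ω x = 0 := by
  refine indicator_of_notMem (fun hc => ?_) _
  have := cube_sub_ball (h.sub hc)
  rw [mem_closedBall_zero_iff] at this
  linarith

theorem HC.intg {Ω : Set (Eu (Fin n))} (h : HC Ω) {φ : Eu (Fin n) → ℝ} (hφ : Continuous φ) :
    Integrable fun x => φ x * wi Ω x :=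
  Pool.Agent.H212R2.KLS.R4aux.intg h.wi_meas (wi_nonneg Ω) ⟨1, wi_le Ω⟩ h.wi_supp hφ

theorem HC.lint {Ω : Set (Eu (Fin n))} (h : HC Ω) {φ : Eu (Fin n) → ℝ} (hφ : Continuous φ)
    (hφ0 : ∀ x, 0 ≤ φ x) :
    ∫⁻ y, ENNReal.ofReal (φ (TH y) * (ww y * wi Ω (TH y))) = ENNReal.ofReal (∫ x, φ x * wi Ω x) := by
  rw [← Pool.Agent.H212R2.KLS.R4aux.lint h.wi_meas (wi_nonneg Ω) ⟨1, wi_le Ω⟩ h.wi_supp hφ hφ0]
  have h1 : ∫⁻ x, ENNReal.ofReal (φ x * wi Ω x) = ∫⁻ x in cube n, ENNReal.ofReal (φ x * wi Ω x) := by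
    refine (setLIntegral_eq_of_support_subset ?_).symm
    intro x hx
    by_contra hc
    apply hx
    show ENNReal.ofReal (φ x * wi Ω x) = 0
    have : wi Ω x = 0 := indicator_of_notMem (fun hh => hc (h.sub hh)) _
    rw [this, mul_zero, ENNReal.ofReal_zero]
  rw [h1, cov]
  refine lintegral_congr fun y => ?_
  rw [← ENNReal.ofReal_mul (ww_pos y).le]
  congr 1
  ring

/-- **Prekopa-Leindler** -/
theorem HC.pl {Ω : Set (Eu (Fin n))} (h : HC Ω) (F G H : Eu (Fin n) → ℝ) (hF : Continuous F)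
    (hG : Continuous G) (hH : Continuous H) (F0 : ∀ x, 0 ≤ F x) (G0 : ∀ x, 0 ≤ G x)
    (H0 : ∀ x, 0 ≤ H x) (hyp : ∀ x y, TH x ∈ Ω → TH y ∈ Ω →
      F (TH x) * G (TH y) * QQ x y ^ 2 ≤ H (TH (md x y)) ^ 2) :
    (∫ x, F x * wi Ω x) * (∫ x, G x * wi Ω x) ≤ (∫ x, H x * wi Ω x) ^ 2 := by
  have hwm : Measurable fun y : Eu (Fin n) => ww y * wi Ω (TH y) :=
    ww_cont.measurable.mul (h.wi_meas.comp TH_cont.measurable)
  have key := Pool.Agent.H212R2.KLS.R4aux.plF (volume : Measure (Eu (Fin n)))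
    (fun y => ENNReal.ofReal (F (TH y) * (ww y * wi Ω (TH y))))
    (fun y => ENNReal.ofReal (G (TH y) * (ww y * wi Ω (TH y))))
    (fun y => ENNReal.ofReal (H (TH y) * (ww y * wi Ω (TH y))))
    (((hF.comp TH_cont).measurable.mul hwm).ennreal_ofReal)
    (((hG.comp TH_cont).measurable.mul hwm).ennreal_ofReal)
    (((hH.comp TH_cont).measurable.mul hwm).ennreal_ofReal) (by
      intro x y
      have hwn : ∀ y : Eu (Fin n), 0 ≤ ww y * wi Ω (TH y) := fun y =>
        mul_nonneg (ww_pos y).le (wi_nonneg _ _)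
      rw [← ENNReal.ofReal_mul (mul_nonneg (F0 _) (hwn _)),
        ← ENNReal.ofReal_pow (mul_nonneg (H0 _) (hwn _))]
      refine ENNReal.ofReal_le_ofReal ?_
      by_cases hx : TH x ∈ Ω
      · by_cases hy : TH y ∈ Ω
        · have hm := h.mid x y hx hy
          have e1 : wi Ω (TH x) = 1 := indicator_of_mem hx _
          have e2 : wi Ω (TH y) = 1 := indicator_of_mem hy _
          have e3 : wi Ω (TH ((1 / 2 : ℝ) • (x + y))) = 1 := indicator_of_mem hm _
          rw [e1, e2, e3]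
          have h1 := hyp x y hx hy
          have h2 := ww_mid x y
          have h3 : 0 ≤ ww (md x y) ^ 2 := sq_nonneg _
          have e4 : ((1 / 2 : ℝ) • (x + y)) = md x y := rfl
          rw [e4]
          calc F (TH x) * (ww x * 1) * (G (TH y) * (ww y * 1))
              = F (TH x) * G (TH y) * (ww x * ww y) := by ring
            _ = ww (md x y) ^ 2 * (F (TH x) * G (TH y) * QQ x y ^ 2) := by rw [h2]; ring
            _ ≤ ww (md x y) ^ 2 * H (TH (md x y)) ^ 2 := mul_le_mul_of_nonneg_left h1 h3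
            _ = _ := by ring
        · have e2 : wi Ω (TH y) = 0 := indicator_of_notMem hy _
          rw [e2]
          simp only [mul_zero]
          positivity
      · have e2 : wi Ω (TH x) = 0 := indicator_of_notMem hx _
        rw [e2]
        simp only [mul_zero, zero_mul]
        positivity)
  rw [h.lint hF F0, h.lint hG G0, h.lint hH H0] at key
  have i1 : 0 ≤ ∫ x, F x * wi Ω x := integral_nonneg fun x => mul_nonneg (F0 x) (wi_nonneg _ _)
  have i3 : 0 ≤ ∫ x, H x * wi Ω x := integral_nonneg fun x => mul_nonneg (H0 x) (wi_nonneg _ _)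
  rw [← ENNReal.ofReal_mul i1, ← ENNReal.ofReal_pow i3,
    ENNReal.ofReal_le_ofReal_iff (by positivity)] at key
  exact key

end Pool.Agent.U959.LB
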