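import Pool.Agent.U959.LB.Pl

/-!
# Lipschitz bodies in the Hilbert metric: the weighted Poincare inequality
-/

set_option autoImplicit false

namespace Pool.Agent.U959.LB

open MeasureTheory Set Filter Topology
open scoped ENNReal
open Pool.Agent.W695.KH (Eu)
open Pool.Agent.H212R2.KLS.R4aux (exp_lower exp_upper asym)

variable {n : ℕ}

/-- partial derivative -/
noncomputable def pd (f : Eu (Fin n) → ℝ) (i : Fin n) (z : Eu (Fin n)) : ℝ :=
  fderiv ℝ f z (EuclideanSpace.single i 1)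

theorem fd_eq (L : Eu (Fin n) →L[ℝ] ℝ) (v : Eu (Fin n)) :
    L v = ∑ i, L (EuclideanSpace.single i 1) * v i := by
  have h1 : v = ∑ i, v i • EuclideanSpace.single i (1 : ℝ) := by
    ext j
    simp [Finset.sum_apply, Pi.single_apply]
  conv_lhs => rw [h1]
  rw [map_sum]
  refine Finset.sum_congr rfl fun i _ => ?_
  rw [map_smul, smul_eq_mul, mul_comm]

theorem norm_le_sum (v : Eu (Fin n)) : ‖v‖ ≤ ∑ i, |v i| := by
  have h0 : 0 ≤ ∑ i, |v i| := Finset.sum_nonneg fun i _ => abs_nonneg _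
  have h1 : ‖v‖ ^ 2 ≤ (∑ i, |v i|) ^ 2 := by
    rw [EuclideanSpace.real_norm_sq_eq]
    have h2 : ∑ i, v i ^ 2 = ∑ i, |v i| ^ 2 := Finset.sum_congr rfl fun i _ => (sq_abs _).symm
    rw [h2, pow_two, Finset.sum_mul]
    refine Finset.sum_le_sum fun i hi => ?_
    rw [pow_two]
    exact mul_le_mul_of_nonneg_left (Finset.single_le_sum (fun j _ => abs_nonneg (v j)) hi)
      (abs_nonneg _)
  exact le_of_sq_le_sq h1 h0

theorem pd_le (f : Eu (Fin n) → ℝ) (i : Fin n) (z : Eu (Fin n)) : |pd f i z| ≤ ‖fderiv ℝ f z‖ := by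
  have := (fderiv ℝ f z).le_opNorm (EuclideanSpace.single i 1)
  unfold pd
  simpa using this

theorem pd_cont {f : Eu (Fin n) → ℝ} (hf : ContDiff ℝ 1 f) (i : Fin n) : Continuous (pd f i) :=
  (hf.continuous_fderiv one_ne_zero).clm_apply continuous_const

/-- the energy -/
noncomputable def Gf (η : ℝ) (f : Eu (Fin n) → ℝ) (z : Eu (Fin n)) : ℝ :=
  (1 + η) * ∑ i, |1 - z i ^ 2| * (|pd f i z| + η) ^ 2

theorem Gf_cont {f : Eu (Fin n) → ℝ} (hf : ContDiff ℝ 1 f) (η : ℝ) : Continuous (Gf η f) := by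
  unfold Gf
  refine continuous_const.mul (continuous_finsetSum _ fun i _ => ?_)
  have h1 := pd_cont hf i
  have h2 : Continuous fun z : Eu (Fin n) => |1 - z i ^ 2| := by fun_prop
  exact h2.mul ((h1.abs.add continuous_const).pow 2)

theorem Gf_nonneg {η : ℝ} (hη : 0 ≤ η) (f : Eu (Fin n) → ℝ) (z : Eu (Fin n)) : 0 ≤ Gf η f z := by
  unfold Gf
  have : 0 ≤ ∑ i, |1 - z i ^ 2| * (|pd f i z| + η) ^ 2 :=
    Finset.sum_nonneg fun i _ => by positivity
  positivity

theorem main {Ω : Set (Eu (Fin n))} (h : HC Ω)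
    (f : Eu (Fin n) → ℝ) (hf : ContDiff ℝ 1 f) (hW : 0 < ∫ x, wi Ω x)
    (h0 : ∫ x, f x * wi Ω x = 0) (η : ℝ) (hη : 0 < η) (hη1 : η ≤ 1) :
    2 * ∫ x, (f x) ^ 2 * wi Ω x ≤ ∫ x, Gf η f x * wi Ω x := by
  have hfc : Continuous f := hf.continuous
  have hfd : Continuous (fderiv ℝ f) := hf.continuous_fderiv (by norm_num)
  have hdiff : ∀ x, DifferentiableAt ℝ f x := fun x => (hf.differentiable (by norm_num)) x
  have hK : IsCompact (Metric.closedBall (0 : Eu (Fin n)) n) := isCompact_closedBall 0 _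
  obtain ⟨B, hB⟩ := hK.exists_bound_of_continuousOn hfc.continuousOn
  obtain ⟨L, hL⟩ := hK.exists_bound_of_continuousOn hfd.continuousOn
  obtain ⟨δ, hδ, hδ'⟩ := (Metric.uniformContinuousOn_iff.1
    (hK.uniformContinuousOn_of_continuous hfd.continuousOn)) η hη
  have hin : ∀ x, x ∈ Ω → x ∈ Metric.closedBall (0 : Eu (Fin n)) n := fun x hx =>
    cube_sub_ball (h.sub hx)
  have hB' : ∀ x, x ∈ Ω → |f x| ≤ |B| := fun x hx => (hB x (hin x hx)).trans (le_abs_self B)
  have hL' : ∀ x, x ∈ Ω → ‖fderiv ℝ f x‖ ≤ |L| := fun x hx =>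
    (hL x (hin x hx)).trans (le_abs_self L)
  obtain ⟨G, hG⟩ : ∃ G, G = Gf η f := ⟨_, rfl⟩
  have hGc : Continuous G := by rw [hG]; exact Gf_cont hf η
  have hG0 : ∀ x, 0 ≤ G x := fun x => by rw [hG]; exact Gf_nonneg hη.le f x
  obtain ⟨G0, hG0'⟩ : ∃ G0 : ℝ, G0 = (1 + η) * (n * (|L| + η) ^ 2) := ⟨_, rfl⟩
  have hGle : ∀ x, x ∈ Ω → G x ≤ G0 := by
    intro x hx
    rw [hG, hG0']
    unfold Gf
    refine mul_le_mul_of_nonneg_left ?_ (by linarith)
    have h1 : ∑ i, |1 - x i ^ 2| * (|pd f i x| + η) ^ 2 ≤ ∑ _i : Fin n, (|L| + η) ^ 2 := by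
      refine Finset.sum_le_sum fun i _ => ?_
      have h2 : |1 - x i ^ 2| ≤ 1 := by
        have := h.sub hx i
        have h3 : x i ^ 2 ≤ 1 := by
          rw [← sq_abs]
          exact pow_le_one₀ (abs_nonneg _) this.le
        rw [abs_le]
        constructor <;> nlinarith [sq_nonneg (x i)]
      have h3 : |pd f i x| + η ≤ |L| + η := by
        have := (pd_le f i x).trans (hL' x hx)
        linarith
      have h4 : (|pd f i x| + η) ^ 2 ≤ (|L| + η) ^ 2 := by
        gcongr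
      calc _ ≤ 1 * (|L| + η) ^ 2 := mul_le_mul h2 h4 (by positivity) zero_le_one
        _ = _ := one_mul _
    rw [Finset.sum_const, Finset.card_univ, Fintype.card_fin, nsmul_eq_mul] at h1
    exact h1
  obtain ⟨S0, hS0⟩ : ∃ S0 : ℝ, S0 = |B| / 2 + G0 / 16 := ⟨_, rfl⟩
  have hG0n : 0 ≤ G0 := by rw [hG0']; positivity
  have hS0n : 0 ≤ S0 := by rw [hS0]; positivity
  obtain ⟨W, hWdef⟩ : ∃ W, W = ∫ x, wi Ω x := ⟨_, rfl⟩
  obtain ⟨M, hM⟩ : ∃ M, M = ∫ x, (f x) ^ 2 * wi Ω x := ⟨_, rfl⟩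
  obtain ⟨D, hD⟩ : ∃ D, D = ∫ x, G x * wi Ω x := ⟨_, rfl⟩
  rw [← hWdef] at hW
  rw [← hG, ← hM, ← hD]
  have hw : ∀ x, 0 ≤ wi Ω x := wi_nonneg Ω
  have hM0 : 0 ≤ M := by
    rw [hM]
    exact integral_nonneg fun x => mul_nonneg (sq_nonneg _) (hw x)
  have hD0 : 0 ≤ D := by
    rw [hD]
    exact integral_nonneg fun x => mul_nonneg (hG0 x) (hw x)
  obtain ⟨C2, hC2⟩ : ∃ C2 : ℝ, C2 = S0 ^ 3 + (|B| * G0 / 16 + G0 ^ 2 / 256) / 2 := ⟨_, rfl⟩
  have hC2n : 0 ≤ C2 := by rw [hC2]; positivity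
  have I1 : ∀ {φ : Eu (Fin n) → ℝ}, Continuous φ → Integrable (fun x => φ x * wi Ω x) :=
    fun hφ => h.intg hφ
  have Iw : Integrable (wi Ω) := by
    have := I1 (φ := fun _ => (1 : ℝ)) continuous_const
    simpa using this
  obtain ⟨ε0, hε0⟩ : ∃ ε0 : ℝ, ε0 = min (min (δ / (2 * (|L| + 1))) (η / (3 * (|L| + η))))
    (min (1 / (|B| + 1)) (1 / (S0 + 1))) := ⟨_, rfl⟩
  have hLη : 0 < |L| + η := by positivity
  have hε0p : 0 < ε0 := by
    rw [hε0]
    refine lt_min (lt_min (by positivity) (by positivity)) (lt_min (by positivity) (by positivity))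
  refine asym (κ := 2) (P := D / (8 * 2) + M / 8) (Q := C2 * W) (B := |B| ^ 3 * W) (W := W)
    (ε0 := ε0) hM0 hW two_pos hD0 (by positivity) rfl hε0p ?_
  intro ε he hee he1
  have heL : ε * |L| ≤ δ / 2 := by
    have h1 : ε ≤ δ / (2 * (|L| + 1)) := hee.trans (by
      rw [hε0]; exact (min_le_left _ _).trans (min_le_left _ _))
    rw [le_div_iff₀ (by positivity)] at h1
    nlinarith [abs_nonneg L]
  have heη : ε * (|L| + η) ≤ η / 3 := by
    have h1 : ε ≤ η / (3 * (|L| + η)) := hee.trans (by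
      rw [hε0]; exact (min_le_left _ _).trans (min_le_right _ _))
    rw [le_div_iff₀ (by positivity)] at h1
    linarith
  have heB : ε * |B| ≤ 1 := by
    have h1 : ε ≤ 1 / (|B| + 1) := hee.trans (by
      rw [hε0]; exact (min_le_right _ _).trans (min_le_left _ _))
    rw [le_div_iff₀ (by positivity)] at h1
    nlinarith
  have heS : ε * S0 ≤ 1 := by
    have h1 : ε ≤ 1 / (S0 + 1) := hee.trans (by
      rw [hε0]; exact (min_le_right _ _).trans (min_le_right _ _))
    rw [le_div_iff₀ (by positivity)] at h1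
    nlinarith
  obtain ⟨s, hs⟩ : ∃ s : Eu (Fin n) → ℝ, s = fun x => ε * f x / 2 + ε ^ 2 * G x / 16 := ⟨_, rfl⟩
  have hsc : Continuous s := by
    rw [hs]
    exact ((continuous_const.mul hfc).div_const 2).add
      ((continuous_const.mul hGc).div_const _)
  -- the pointwise inequality
  have hkey : ∀ x y : Eu (Fin n), TH x ∈ Ω → TH y ∈ Ω →
      ε * f (TH x) - 2 * ∑ i, qq (x i) (y i) ≤ 2 * s (TH (md x y)) := by
    intro x y hx hy
    have hm := h.mid x y hx hy
    obtain ⟨X, hX⟩ : ∃ X, X = TH x := ⟨_, rfl⟩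
    obtain ⟨Z, hZ⟩ : ∃ Z, Z = TH (md x y) := ⟨_, rfl⟩
    rw [← hX, ← hZ]
    rw [← hX] at hx
    rw [← hZ] at hm
    have hXi : ∀ i, X i = Real.tanh (x i) := fun i => by rw [hX]; rfl
    have hZi : ∀ i, Z i = Real.tanh ((x i + y i) / 2) := fun i => by
      rw [hZ, TH_apply, md_apply]
    have hs2 : 2 * s Z = ε * f Z + ε ^ 2 * G Z / 8 := by
      rw [hs]; ring
    rw [hs2]
    have hseg : ∀ p ∈ segment ℝ Z X, p ∈ Ω ∧ ‖p - Z‖ ≤ ‖X - Z‖ := by
      intro p hp
      refine ⟨h.cv.segment_subset hm hx hp, ?_⟩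
      obtain ⟨a, b, ha, hb, hab, rfl⟩ := hp
      have h1 : a • Z + b • X - Z = b • (X - Z) := by
        have : a = 1 - b := by linarith
        rw [this, sub_smul, one_smul, smul_sub]
        abel
      rw [h1, norm_smul, Real.norm_eq_abs, abs_of_nonneg hb]
      have hb1 : b ≤ 1 := by linarith
      calc b * ‖X - Z‖ ≤ 1 * ‖X - Z‖ := by gcongr
        _ = ‖X - Z‖ := one_mul _
    by_cases htd : ‖X - Z‖ < δ
    · -- linearisation
      have hmv : ‖f X - f Z - (fderiv ℝ f Z) (X - Z)‖ ≤ η * ‖X - Z‖ := by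
        refine Convex.norm_image_sub_le_of_norm_hasFDerivWithin_le' (s := segment ℝ Z X)
          (f' := fun p => fderiv ℝ f p) (φ := fderiv ℝ f Z)
          (fun p _ => (hdiff p).hasFDerivAt.hasFDerivWithinAt) ?_ (convex_segment Z X)
          (left_mem_segment ℝ Z X) (right_mem_segment ℝ Z X)
        intro p hp
        obtain ⟨h1, h2⟩ := hseg p hp
        have h3 := hδ' p (hin p h1) Z (hin Z hm) (by
          rw [dist_eq_norm]; exact lt_of_le_of_lt h2 htd)
        rw [dist_eq_norm] at h3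
        exact h3.le
      have h1 : f X - f Z ≤ ∑ i, (|pd f i Z| + η) * |X i - Z i| := by
        have h2 : (fderiv ℝ f Z) (X - Z) ≤ ∑ i, |pd f i Z| * |X i - Z i| := by
          rw [fd_eq]
          refine Finset.sum_le_sum fun i _ => ?_
          rw [← abs_mul]
          exact le_abs_self _
        have h3 : ‖X - Z‖ ≤ ∑ i, |X i - Z i| := norm_le_sum (X - Z)
        have h4 : f X - f Z - (fderiv ℝ f Z) (X - Z) ≤ η * ‖X - Z‖ := (le_abs_self _).trans hmv
        have h5 : ∑ i, (|pd f i Z| + η) * |X i - Z i| =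
            ∑ i, |pd f i Z| * |X i - Z i| + η * ∑ i, |X i - Z i| := by
          rw [Finset.mul_sum, ← Finset.sum_add_distrib]
          refine Finset.sum_congr rfl fun i _ => by ring
        have h6 := mul_le_mul_of_nonneg_left h3 hη.le
        linarith
      have h2 : ε * ∑ i, (|pd f i Z| + η) * |X i - Z i| ≤
          2 * ∑ i, qq (x i) (y i) + ε ^ 2 * G Z / 8 := by
        have e1 : 2 * ∑ i, qq (x i) (y i) + ε ^ 2 * G Z / 8 =
            ∑ i, (2 * qq (x i) (y i) +
              ε ^ 2 * (1 + η) * (|1 - Z i ^ 2| * (|pd f i Z| + η) ^ 2) / 8) := by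
          rw [hG]
          unfold Gf
          rw [Finset.sum_add_distrib, ← Finset.mul_sum, ← Finset.sum_div, ← Finset.mul_sum]
          ring
        rw [e1, Finset.mul_sum]
        refine Finset.sum_le_sum fun i _ => ?_
        obtain ⟨A, hA⟩ : ∃ A, A = ε * (|pd f i Z| + η) := ⟨_, rfl⟩
        have hA0 : 0 ≤ A := by rw [hA]; positivity
        have hA3 : A ≤ η / 3 := by
          have h3 : |pd f i Z| + η ≤ |L| + η := by
            have := (pd_le f i Z).trans (hL' Z hm)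
            linarith
          calc A = ε * (|pd f i Z| + η) := hA
            _ ≤ ε * (|L| + η) := by gcongr
            _ ≤ η / 3 := heη
        have h3 := one (x i) (y i) A hA0 (by linarith)
        have hv : |1 - Z i ^ 2| = vv ((x i + y i) / 2) := by
          rw [hZi]
          exact abs_of_pos (vv_pos _)
        rw [hv, hXi, hZi]
        have h4 : A ^ 2 * (1 + A) ^ 2 ≤ A ^ 2 * (1 + η) := by
          refine mul_le_mul_of_nonneg_left ?_ (sq_nonneg _)
          nlinarith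
        have h5 := mul_le_mul_of_nonneg_right h4 (vv_pos ((x i + y i) / 2)).le
        have e2 : ε ^ 2 * (1 + η) * (vv ((x i + y i) / 2) * (|pd f i Z| + η) ^ 2) =
            A ^ 2 * (1 + η) * vv ((x i + y i) / 2) := by
          rw [hA]; ring
        rw [e2]
        have e3 : ε * ((|pd f i Z| + η) * |Real.tanh (x i) - Real.tanh ((x i + y i) / 2)|) =
            A * |Real.tanh (x i) - Real.tanh ((x i + y i) / 2)| := by
          rw [hA]; ring
        rw [e3]
        linarith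
      have h3 := mul_le_mul_of_nonneg_left h1 he.le
      linarith
    · push Not at htd
      have hmv : ‖f X - f Z‖ ≤ |L| * ‖X - Z‖ := by
        refine Convex.norm_image_sub_le_of_norm_fderiv_le (s := segment ℝ Z X)
          (fun p _ => hdiff p) ?_ (convex_segment Z X) (left_mem_segment ℝ Z X)
          (right_mem_segment ℝ Z X)
        intro p hp
        exact hL' p (hseg p hp).1
      have h1 : f X - f Z ≤ |L| * ‖X - Z‖ := (le_abs_self _).trans hmv
      have h2 : ‖X - Z‖ ^ 2 ≤ 4 * ∑ i, qq (x i) (y i) := by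
        rw [EuclideanSpace.real_norm_sq_eq, Finset.mul_sum]
        refine Finset.sum_le_sum fun i _ => ?_
        have := disp_le (x i) (y i)
        rw [← hXi, ← hZi] at this
        exact this
      have h3 : ε * (f X - f Z) ≤ ε * (|L| * ‖X - Z‖) := by gcongr
      have h4 : ε * (|L| * ‖X - Z‖) ≤ δ / 2 * ‖X - Z‖ := by
        have : ε * |L| * ‖X - Z‖ ≤ δ / 2 * ‖X - Z‖ := by gcongr
        linarith
      have h5 : δ / 2 * ‖X - Z‖ ≤ ‖X - Z‖ ^ 2 / 2 := by
        have : δ * ‖X - Z‖ ≤ ‖X - Z‖ * ‖X - Z‖ := by gcongr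
        nlinarith
      have h6 : 0 ≤ ε ^ 2 * G Z / 8 := by
        have := hG0 Z
        positivity
      linarith
  have hpt : ∀ x y : Eu (Fin n), TH x ∈ Ω → TH y ∈ Ω →
      Real.exp (ε * f (TH x)) * 1 * QQ x y ^ 2 ≤ (Real.exp (s (TH (md x y)))) ^ 2 := by
    intro x y hx hy
    have h1 := hkey x y hx hy
    calc Real.exp (ε * f (TH x)) * 1 * QQ x y ^ 2
        ≤ Real.exp (ε * f (TH x)) * 1 * Real.exp (-(2 * ∑ i, qq (x i) (y i))) := by
          have := QQ_le x y
          gcongr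
      _ = Real.exp (ε * f (TH x) - 2 * ∑ i, qq (x i) (y i)) := by
          rw [mul_one, ← Real.exp_add]
          congr 1
      _ ≤ Real.exp (2 * s (TH (md x y))) := Real.exp_le_exp.2 h1
      _ = (Real.exp (s (TH (md x y)))) ^ 2 := by
          rw [← Real.exp_nat_mul]; norm_num
  -- Prekopa-Leindler
  have hE1 : Continuous (fun x => Real.exp (ε * f x)) :=
    Real.continuous_exp.comp (continuous_const.mul hfc)
  have hE2 : Continuous (fun x => Real.exp (s x)) := Real.continuous_exp.comp hsc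
  have hPL := h.pl (fun x => Real.exp (ε * f x)) (fun _ => 1) (fun x => Real.exp (s x)) hE1
    continuous_const hE2 (fun x => (Real.exp_pos _).le) (fun _ => zero_le_one)
    (fun x => (Real.exp_pos _).le) hpt
  have hnn2 : 0 ≤ ∫ x, Real.exp (s x) * wi Ω x :=
    integral_nonneg fun x => mul_nonneg (Real.exp_pos _).le (hw x)
  have hone : ∫ x, (1 : ℝ) * wi Ω x = W := by
    rw [hWdef]; simp
  rw [hone] at hPL
  -- lower bound
  have hlow : W + ε ^ 2 / 2 * M - ε ^ 3 * (|B| ^ 3 * W)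
      ≤ ∫ x, Real.exp (ε * f x) * wi Ω x := by
    have h1 : ∫ x, (1 - (ε * |B|) ^ 3) * wi Ω x + ε * (f x * wi Ω x)
        + ε ^ 2 / 2 * ((f x) ^ 2 * wi Ω x)
        = W + ε ^ 2 / 2 * M - ε ^ 3 * (|B| ^ 3 * W) := by
      rw [integral_add, integral_add, integral_const_mul, integral_const_mul,
        integral_const_mul, h0]
      · rw [← hWdef, ← hM]; ring
      · exact Iw.const_mul _
      · exact (I1 hfc).const_mul _
      · exact (Iw.const_mul _).add ((I1 hfc).const_mul _)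
      · exact (I1 (hfc.pow 2)).const_mul _
    rw [← h1]
    refine integral_mono ?_ (I1 hE1) ?_
    · exact ((Iw.const_mul _).add ((I1 hfc).const_mul _)).add ((I1 (hfc.pow 2)).const_mul _)
    · intro x
      dsimp only
      by_cases hx : x ∈ Ω
      swap
      · have : wi Ω x = 0 := indicator_of_notMem hx _
        rw [this]; simp
      have h2 : |ε * f x| ≤ ε * |B| := by
        rw [abs_mul, abs_of_pos he]
        have := hB' x hx
        gcongr
      have h3 := exp_lower h2 heB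
      have h4 : (1 + ε * f x + (ε * f x) ^ 2 / 2 - (ε * |B|) ^ 3) * wi Ω x
          ≤ Real.exp (ε * f x) * wi Ω x := mul_le_mul_of_nonneg_right h3 (hw x)
      calc _ = (1 + ε * f x + (ε * f x) ^ 2 / 2 - (ε * |B|) ^ 3) * wi Ω x := by ring
        _ ≤ _ := h4
  -- upper bound
  have hupp : ∫ x, Real.exp (s x) * wi Ω x
      ≤ W + ε ^ 2 * (D / (8 * 2) + M / 8) + ε ^ 3 * (C2 * W) := by
    have h1 : ∫ x, (1 + ε ^ 3 * C2) * wi Ω x + ε / 2 * (f x * wi Ω x)
        + ε ^ 2 / 8 * ((f x) ^ 2 * wi Ω x) + ε ^ 2 / 16 * (G x * wi Ω x)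
        = W + ε ^ 2 * (D / (8 * 2) + M / 8) + ε ^ 3 * (C2 * W) := by
      rw [integral_add, integral_add, integral_add, integral_const_mul, integral_const_mul,
        integral_const_mul, integral_const_mul, h0]
      · rw [← hWdef, ← hM, ← hD]
        ring
      · exact Iw.const_mul _
      · exact (I1 hfc).const_mul _
      · exact (Iw.const_mul _).add ((I1 hfc).const_mul _)
      · exact (I1 (hfc.pow 2)).const_mul _
      · exact ((Iw.const_mul _).add ((I1 hfc).const_mul _)).add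
          ((I1 (hfc.pow 2)).const_mul _)
      · exact (I1 hGc).const_mul _
    rw [← h1]
    refine integral_mono (I1 hE2) ?_ ?_
    · exact (((Iw.const_mul _).add ((I1 hfc).const_mul _)).add
          ((I1 (hfc.pow 2)).const_mul _)).add ((I1 hGc).const_mul _)
    · intro x
      dsimp only
      by_cases hx : x ∈ Ω
      swap
      · have : wi Ω x = 0 := indicator_of_notMem hx _
        rw [this]; simp
      have hfB := hB' x hx
      have hGG := hGle x hx
      have hGn := hG0 x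
      have hee2 : ε ^ 2 ≤ ε := by nlinarith
      have hsx : s x = ε * f x / 2 + ε ^ 2 * G x / 16 := by rw [hs]
      have h2 : |s x| ≤ ε * S0 := by
        rw [hsx, hS0]
        have h3 : |ε * f x / 2| ≤ ε * (|B| / 2) := by
          rw [abs_div, abs_mul, abs_of_pos he, abs_of_pos (by norm_num : (0 : ℝ) < 2)]
          have : ε * |f x| ≤ ε * |B| := by gcongr
          linarith
        have h4 : |ε ^ 2 * G x / 16| ≤ ε * (G0 / 16) := by
          rw [abs_of_nonneg (by positivity), mul_div_assoc]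
          gcongr
        calc |ε * f x / 2 + ε ^ 2 * G x / 16|
            ≤ |ε * f x / 2| + |ε ^ 2 * G x / 16| := abs_add_le _ _
          _ ≤ ε * (|B| / 2) + ε * (G0 / 16) := add_le_add h3 h4
          _ = ε * (|B| / 2 + G0 / 16) := by ring
      have h3 := exp_upper h2 heS
      have h5 : (s x) ^ 2 / 2 ≤ ε ^ 2 / 8 * (f x) ^ 2
          + ε ^ 3 * ((|B| * G0 / 16 + G0 ^ 2 / 256) / 2) := by
        have h6 : (s x) ^ 2 = ε ^ 2 / 4 * (f x) ^ 2 + ε ^ 3 * (f x * G x / 16)
            + ε ^ 4 * ((G x) ^ 2 / 256) := by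
          rw [hsx]; ring
        have h7 : f x * G x / 16 ≤ |B| * G0 / 16 := by
          have h8 : f x * G x ≤ |B| * G0 := by
            calc f x * G x ≤ |f x| * G x := mul_le_mul_of_nonneg_right (le_abs_self _) hGn
              _ ≤ |B| * G0 := by gcongr
          gcongr
        have h8 : (G x) ^ 2 / 256 ≤ G0 ^ 2 / 256 := by gcongr
        have h9 : ε ^ 4 * ((G x) ^ 2 / 256) ≤ ε ^ 3 * (G0 ^ 2 / 256) := by
          have : ε ^ 4 ≤ ε ^ 3 := pow_le_pow_of_le_one he.le he1 (by norm_num)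
          gcongr
        have h10 : ε ^ 3 * (f x * G x / 16) ≤ ε ^ 3 * (|B| * G0 / 16) := by
          gcongr
        rw [h6]
        linarith
      have h6 : Real.exp (s x) ≤ 1 + ε ^ 3 * C2 + ε / 2 * f x + ε ^ 2 / 8 * (f x) ^ 2
          + ε ^ 2 / 16 * G x := by
        have h7 : s x = ε / 2 * f x + ε ^ 2 / 16 * G x := by
          rw [hsx]; ring
        have h8 : ε ^ 3 * C2 = (ε * S0) ^ 3
            + ε ^ 3 * ((|B| * G0 / 16 + G0 ^ 2 / 256) / 2) := by
          rw [hC2]; ring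
        rw [h8]
        linarith
      calc Real.exp (s x) * wi Ω x ≤ (1 + ε ^ 3 * C2 + ε / 2 * f x + ε ^ 2 / 8 * (f x) ^ 2
          + ε ^ 2 / 16 * G x) * wi Ω x := mul_le_mul_of_nonneg_right h6 (hw x)
        _ = _ := by ring
  calc (W + ε ^ 2 / 2 * M - ε ^ 3 * (|B| ^ 3 * W)) * W
      ≤ (∫ x, Real.exp (ε * f x) * wi Ω x) * W := mul_le_mul_of_nonneg_right hlow hW.le
    _ ≤ (∫ x, Real.exp (s x) * wi Ω x) ^ 2 := hPL
    _ ≤ _ := pow_le_pow_left₀ hnn2 hupp 2

end Pool.Agent.U959.LB
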